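import Pool.Agent.R344.LS.Y

/-!
Levels of the generalised Syracuse maps `x ↦ (3 x + d) / 2 ^ a(x)`, part 1: the map in terms of the
shortcut map, and the law of the levels for an arbitrary odd `d` prime to `3`.
-/

set_option autoImplicit false

namespace Pool.Agent.R978.ML

open Finset Filter Topology
open Pool.Agent.H499R2.LT
open Pool.Agent.H499R2.ND (Td Dn cop_of_not_dvd side_odd cnt cnt_eq)
open Pool.Agent.R344.LS

theorem exists_pow (n : ℕ) : ∀ x : ℤ, x ≠ 0 → x.natAbs ≤ n → ∃ (v : ℕ) (M : ℤ), x = 2 ^ v * M ∧ M % 2 = 1 := by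
  induction n with
  | zero => intro x hx h; omega
  | succ n ih =>
    intro x hx h
    rcases Int.emod_two_eq_zero_or_one x with h1 | h1
    · obtain ⟨v, M, h2, h3⟩ := ih (x / 2) (by omega) (by omega)
      refine ⟨v + 1, M, ?_, h3⟩
      have : x = 2 * (x / 2) := by omega
      rw [this, h2]
      ring
    · exact ⟨0, x, by simp, h1⟩

/-- the exponent of `2` in `3 x + d` -/
noncomputable def va (d x : ℤ) : ℕ := multiplicity (2 : ℤ) (3 * x + d)

/-- the generalised Syracuse map -/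
noncomputable def Hs (d x : ℤ) : ℤ := (3 * x + d) / 2 ^ va d x

theorem va_eq {d N M : ℤ} {v : ℕ} (h : 3 * N + d = 2 ^ v * M) (hM : M % 2 = 1) : va d N = v := by
  unfold va
  apply multiplicity_eq_of_dvd_of_not_dvd
  · rw [h]; exact dvd_mul_right _ _
  · rw [h, pow_succ]
    intro h2
    have h3 : (2 : ℤ) ∣ M := by
      rcases h2 with ⟨c, hc⟩
      have h4 : (2 : ℤ) ^ v * M = 2 ^ v * (2 * c) := by rw [hc]; ring
      have h5 := mul_left_cancel₀ (by positivity : (2 : ℤ) ^ v ≠ 0) h4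
      exact ⟨c, h5⟩
    omega

theorem Hs_eq {d N M : ℤ} {v : ℕ} (h : 3 * N + d = 2 ^ v * M) (hM : M % 2 = 1) : Hs d N = M := by
  unfold Hs
  rw [va_eq h hM, h, Int.mul_ediv_cancel_left _ (by positivity)]

theorem Td_two (d x : ℤ) : Td d (2 * x) = x := by
  unfold Td
  rw [if_pos (by omega)]
  omega

theorem Td_pow (d : ℤ) (v : ℕ) (M : ℤ) (i : ℕ) (hi : i ≤ v) : (Td d)^[i] (2 ^ v * M) = 2 ^ (v - i) * M := by
  induction i with
  | zero => simp
  | succ i ih =>
    rw [Function.iterate_succ_apply', ih (by omega)]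
    have e : v - i = (v - (i + 1)) + 1 := by omega
    rw [e, pow_succ, show (2 : ℤ) ^ (v - (i + 1)) * 2 * M = 2 * (2 ^ (v - (i + 1)) * M) by ring, Td_two]

variable {d : ℤ}

theorem nz (hd3 : ¬ (3 : ℤ) ∣ d) (x : ℤ) : 3 * x + d ≠ 0 := by
  intro h
  exact hd3 ⟨-x, by linarith⟩

/-- one step of the Syracuse map in terms of the shortcut map -/
theorem step_val (hd : Odd d) (hd3 : ¬ (3 : ℤ) ∣ d) {x : ℤ} (hx : x % 2 = 1) : 1 ≤ va d x ∧
    (Td d)^[va d x] x = Hs d x ∧
    (∀ i, 1 ≤ i → i < va d x → (Td d)^[i] x % 2 = 0) ∧ Hs d x % 2 = 1 := by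
  have hd' := Int.odd_iff.1 hd
  obtain ⟨w, M, h1, h2⟩ := exists_pow _ (3 * x + d) (nz hd3 x) le_rfl
  have hw : w ≠ 0 := by
    rintro rfl
    rw [pow_zero, one_mul] at h1
    omega
  obtain ⟨v, rfl⟩ : ∃ v, w = v + 1 := ⟨w - 1, by omega⟩
  have hS : Hs d x = M := Hs_eq h1 h2
  have hT : Td d x = 2 ^ v * M := by
    unfold Td
    rw [if_neg (by omega), h1, pow_succ]
    have : (2 : ℤ) ^ v * 2 * M = 2 * (2 ^ v * M) := by ring
    rw [this]
    omega
  rw [va_eq h1 h2]
  refine ⟨by omega, ?_, ?_, by rw [hS]; exact h2⟩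
  · rw [Function.iterate_succ_apply, hT, Td_pow d v M v le_rfl, hS]
    simp
  · intro i hi hiv
    obtain ⟨j, rfl⟩ : ∃ j, i = j + 1 := ⟨i - 1, by omega⟩
    rw [Function.iterate_succ_apply, hT, Td_pow d v M j (by omega)]
    obtain ⟨r, hr⟩ : ∃ r, v - j = r + 1 := ⟨v - j - 1, by omega⟩
    rw [hr, pow_succ]
    have : (2 : ℤ) ^ r * 2 * M = 2 * (2 ^ r * M) := by ring
    rw [this]
    omega

theorem od_even (v : ℕ) (x : ℤ) (h : ∀ i < v, (Td d)^[i] x % 2 = 0) : od d v x = 0 := by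
  induction v generalizing x with
  | zero => rw [od]
  | succ v ih =>
    rw [od, if_pos (by simpa using h 0 (by omega)), ih, add_zero]
    intro i hi
    have := h (i + 1) (by omega)
    rwa [Function.iterate_succ_apply] at this

theorem od_step {x : ℤ} (hx : x % 2 = 1) {v : ℕ} (hv : 1 ≤ v)
    (h : ∀ i, 1 ≤ i → i < v → (Td d)^[i] x % 2 = 0) : od d v x = 1 := by
  obtain ⟨w, rfl⟩ : ∃ w, v = w + 1 := ⟨v - 1, by omega⟩
  rw [od, if_neg (by omega), od_even, add_zero]
  intro i hi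
  have := h (i + 1) (by omega) (by omega)
  rwa [Function.iterate_succ_apply] at this

/-- the orbit of `N` under the Syracuse map enters `F` after exactly `k` steps -/
def En (d : ℤ) (F : Finset ℤ) (k : ℕ) (N : ℤ) : Prop := (Hs d)^[k] N ∈ F ∧ ∀ i < k, (Hs d)^[i] N ∉ F

/-- the sum of the first `j` exponents -/
noncomputable def tot (d : ℤ) (j : ℕ) (x : ℤ) : ℕ := ∑ i ∈ range j, va d ((Hs d)^[i] x)

theorem tot_succ (j : ℕ) (x : ℤ) : tot d (j + 1) x = va d x + tot d j (Hs d x) := by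
  unfold tot
  rw [sum_range_succ', add_comm]
  simp only [Function.iterate_zero, id_eq]
  congr 1

theorem Hs_odd (hd : Odd d) (hd3 : ¬ (3 : ℤ) ∣ d) {x : ℤ} (hx : x % 2 = 1) (j : ℕ) : (Hs d)^[j] x % 2 = 1 := by
  induction j with
  | zero => exact hx
  | succ j ih =>
    rw [Function.iterate_succ_apply']
    exact (step_val hd hd3 ih).2.2.2

/-- Syracuse iterates are iterates of the shortcut map -/
theorem Hs_iter (hd : Odd d) (hd3 : ¬ (3 : ℤ) ∣ d) {x : ℤ} (hx : x % 2 = 1) (j : ℕ) :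
    ∃ k : ℕ, j ≤ k ∧ (Td d)^[k] x = (Hs d)^[j] x := by
  induction j with
  | zero => exact ⟨0, le_rfl, rfl⟩
  | succ j ih =>
    obtain ⟨k, hk, h⟩ := ih
    obtain ⟨hv, h1, _, _⟩ := step_val hd hd3 (Hs_odd hd hd3 hx j)
    refine ⟨va d ((Hs d)^[j] x) + k, by omega, ?_⟩
    rw [Function.iterate_add_apply, h, h1, Function.iterate_succ_apply']

/-- odd iterates of the shortcut map are Syracuse iterates -/
theorem Td_iter (hd : Odd d) (hd3 : ¬ (3 : ℤ) ∣ d) {x : ℤ} (hx : x % 2 = 1) (k : ℕ) (h : (Td d)^[k] x % 2 = 1) :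
    ∃ j : ℕ, (Hs d)^[j] x = (Td d)^[k] x := by
  induction k using Nat.strong_induction_on generalizing x with
  | _ k ih =>
    rcases Nat.eq_zero_or_pos k with hk | hk
    · subst hk
      exact ⟨0, rfl⟩
    · obtain ⟨hv, h1, h2, h3⟩ := step_val hd hd3 hx
      have hvk : va d x ≤ k := by
        by_contra hlt
        have h4 := h2 k hk (by omega)
        omega
      have e0 : (Td d)^[k] x = (Td d)^[k - va d x] (Hs d x) := by
        rw [← h1, ← Function.iterate_add_apply, Nat.sub_add_cancel hvk]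
      rw [e0] at h
      obtain ⟨j, hj⟩ := ih (k - va d x) (by omega) h3 h
      exact ⟨j + 1, by rw [Function.iterate_succ_apply, hj, e0]⟩

theorem hit_iff (hd : Odd d) (hd3 : ¬ (3 : ℤ) ∣ d) {x : ℤ} (hx : x % 2 = 1) {F : Set ℤ} (hF : ∀ y ∈ F, y % 2 = 1) :
    (∃ k : ℕ, (Hs d)^[k] x ∈ F) ↔ ∃ k : ℕ, (Td d)^[k] x ∈ F := by
  constructor
  · rintro ⟨j, hj⟩
    obtain ⟨k, _, hk⟩ := Hs_iter hd hd3 hx j
    exact ⟨k, by rw [hk]; exact hj⟩
  · rintro ⟨k, hk⟩
    obtain ⟨j, hj⟩ := Td_iter hd hd3 hx k (hF _ hk)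
    exact ⟨j, by rw [hj]; exact hk⟩

theorem joint (hd : Odd d) (hd3 : ¬ (3 : ℤ) ∣ d) {F : Finset ℤ} (hF : ∀ y ∈ F, y % 2 = 1) (j : ℕ) :
    ∀ x : ℤ, x % 2 = 1 → ∀ k : ℕ, (En d F j x ∧ tot d j x = k) ↔ (FH d F k x ∧ od d k x = j) := by
  induction j with
  | zero =>
    intro x hx k
    constructor
    · rintro ⟨h1, h2⟩
      have h3 : k = 0 := by rw [← h2]; rfl
      subst h3
      exact ⟨⟨h1.1, fun i hi => by omega⟩, by simp [od]⟩
    · rintro ⟨h1, h2⟩
      have hk : k = 0 := by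
        by_contra hk
        obtain ⟨m, rfl⟩ : ∃ m, k = m + 1 := ⟨k - 1, by omega⟩
        rw [od, if_neg (by omega)] at h2
        have := (od_bd d m (Td d x)).1
        push_cast at h2
        omega
      subst hk
      exact ⟨⟨h1.1, fun i hi => by omega⟩, rfl⟩
  | succ j ih =>
    intro x hx k
    obtain ⟨hv, h1, h2, h3⟩ := step_val hd hd3 hx
    rw [tot_succ]
    set v := va d x with hvdef
    constructor
    · rintro ⟨g1, g2⟩
      have hxF : x ∉ F := g1.2 0 (by omega)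
      have g3 : En d F j (Hs d x) := ⟨by
        have := g1.1
        rwa [Function.iterate_succ_apply] at this, fun i hi => by
        have := g1.2 (i + 1) (by omega)
        rwa [Function.iterate_succ_apply] at this⟩
      obtain ⟨g4, g5⟩ := (ih (Hs d x) h3 (tot d j (Hs d x))).1 ⟨g3, rfl⟩
      rw [← g2]
      refine ⟨⟨?_, ?_⟩, ?_⟩
      · rw [Nat.add_comm, Function.iterate_add_apply, h1]; exact g4.1
      · intro i hi
        by_cases hiv : i < v
        · rcases Nat.eq_zero_or_pos i with hi0 | hi0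
          · subst hi0; exact hxF
          · intro h4
            have h5 := h2 i hi0 hiv
            have h6 := hF _ h4
            omega
        · have e : i = (i - v) + v := by omega
          rw [e, Function.iterate_add_apply, h1]
          exact g4.2 _ (by omega)
      · rw [od_add, od_step hx hv h2, h1, g5]
        push_cast
        ring
    · rintro ⟨g1, g2⟩
      have hk0 : 0 < k := by
        by_contra hk
        have : k = 0 := by omega
        subst this
        rw [od] at g2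
        push_cast at g2
        omega
      have hxF : x ∉ F := g1.2 0 hk0
      have hvk : v ≤ k := by
        by_contra hlt
        have h4 := h2 k hk0 (by omega)
        have h5 := hF _ g1.1
        omega
      have h6 : FH d F (k - v) (Hs d x) := by
        constructor
        · rw [← h1, ← Function.iterate_add_apply, Nat.sub_add_cancel hvk]; exact g1.1
        · intro i hi
          rw [← h1, ← Function.iterate_add_apply]
          exact g1.2 _ (by omega)
      have h7 : od d (k - v) (Hs d x) = j := by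
        have e : k = v + (k - v) := by omega
        rw [e, od_add, od_step hx hv h2, h1] at g2
        have e2 : v + (k - v) - v = k - v := by omega
        push_cast at g2
        linarith
      obtain ⟨g3, g4⟩ := (ih (Hs d x) h3 (k - v)).2 ⟨h6, h7⟩
      refine ⟨⟨?_, ?_⟩, by omega⟩
      · rw [Function.iterate_succ_apply]; exact g3.1
      · intro i hi
        rcases i with _ | i
        · exact hxF
        · rw [Function.iterate_succ_apply]; exact g3.2 i (by omega)

/-- the integers whose trajectory under the shortcut map meets `F`: an invariant property up to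
doubling, if `F` contains only odd integers -/
theorem hit_two {F : Set ℤ} (hF : ∀ y ∈ F, y % 2 = 1) (x : ℤ) :
    (∃ k : ℕ, (Td d)^[k] (2 * x) ∈ F) ↔ ∃ k : ℕ, (Td d)^[k] x ∈ F := by
  constructor
  · rintro ⟨k, hk⟩
    cases k with
    | zero =>
      have := hF _ hk
      simp only [Function.iterate_zero, id_eq] at this
      omega
    | succ k =>
      rw [Function.iterate_succ_apply, Td_two] at hk
      exact ⟨k, hk⟩
  · rintro ⟨k, hk⟩
    exact ⟨k + 1, by rw [Function.iterate_succ_apply, Td_two]; exact hk⟩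

/-- the density among the odd integers -/
theorem Dn_odd {P : ℕ → Prop} {δ : ℝ} (hP : ∀ n, P (2 * n) ↔ P n) (h : Dn P δ) :
    Dn (fun n => n % 2 = 1 ∧ P n) (δ / 2) := by
  classical
  -- cnt P N = cnt (odd ∧ P) N + cnt P (N / 2)
  have key : ∀ N : ℕ, cnt (fun n => n % 2 = 1 ∧ P n) N = cnt P N - cnt P (N / 2) := by
    intro N
    rw [cnt_eq, cnt_eq, cnt_eq]
    have h1 : ((Icc 1 N).filter P).card = ((Icc 1 N).filter (fun n => n % 2 = 1 ∧ P n)).card +
        ((Icc 1 N).filter (fun n => n % 2 = 0 ∧ P n)).card := by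
      rw [← card_union_of_disjoint]
      · congr 1
        ext n
        simp only [mem_union, mem_filter]
        constructor
        · rintro ⟨g1, g2⟩
          rcases Nat.mod_two_eq_zero_or_one n with g | g
          · exact Or.inr ⟨g1, g, g2⟩
          · exact Or.inl ⟨g1, g, g2⟩
        · rintro (⟨g1, _, g2⟩ | ⟨g1, _, g2⟩)
          · exact ⟨g1, g2⟩
          · exact ⟨g1, g2⟩
      · rw [disjoint_filter]
        rintro n _ ⟨g, _⟩ ⟨g', _⟩
        omega
    have h2 : ((Icc 1 N).filter (fun n => n % 2 = 0 ∧ P n)).card = ((Icc 1 (N / 2)).filter P).card := by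
      symm
      apply card_bij (fun n _ => 2 * n)
      · intro n hn
        rw [mem_filter, mem_Icc] at hn ⊢
        exact ⟨⟨by omega, by omega⟩, by omega, (hP n).2 hn.2⟩
      · intro a _ b _ hab
        omega
      · intro n hn
        rw [mem_filter, mem_Icc] at hn
        obtain ⟨⟨g1, g2⟩, g3, g4⟩ := hn
        have e : n = 2 * (n / 2) := by omega
        refine ⟨n / 2, ?_, by omega⟩
        rw [mem_filter, mem_Icc]
        refine ⟨⟨by omega, by omega⟩, ?_⟩
        rw [e, hP] at g4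
        exact g4
    rw [h1, h2]
    push_cast
    ring
  have h3 : Tendsto (fun N : ℕ => cnt P (N / 2) / N) atTop (𝓝 (δ / 2)) := by
    have hdiv : Tendsto (fun N : ℕ => N / 2) atTop atTop := by
      apply tendsto_atTop.2
      intro b
      filter_upwards [eventually_ge_atTop (2 * b)] with N hN
      omega
    have h4 : Tendsto (fun N : ℕ => cnt P (N / 2) / ((N / 2 : ℕ) : ℝ)) atTop (𝓝 δ) := h.comp hdiv
    have h5 : Tendsto (fun N : ℕ => ((N / 2 : ℕ) : ℝ) / N) atTop (𝓝 (1 / 2)) := by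
      have h6 : Tendsto (fun N : ℕ => (1 / 2 : ℝ) - 1 / (N : ℝ)) atTop (𝓝 (1 / 2 - 0)) :=
        tendsto_const_nhds.sub tendsto_one_div_atTop_nhds_zero_nat
      rw [sub_zero] at h6
      refine tendsto_of_tendsto_of_tendsto_of_le_of_le' h6 tendsto_const_nhds ?_ ?_
      · filter_upwards [eventually_gt_atTop 0] with N hN
        have hN0 : (0 : ℝ) < N := by exact_mod_cast hN
        rw [le_div_iff₀ hN0, sub_mul, one_div_mul_cancel hN0.ne']
        have g : N ≤ 2 * (N / 2) + 1 := by omega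
        have g' : (N : ℝ) ≤ 2 * ((N / 2 : ℕ) : ℝ) + 1 := by exact_mod_cast g
        linarith
      · filter_upwards [eventually_gt_atTop 0] with N hN
        have hN0 : (0 : ℝ) < N := by exact_mod_cast hN
        rw [div_le_iff₀ hN0]
        have g : 2 * (N / 2) ≤ N := by omega
        have g' : 2 * ((N / 2 : ℕ) : ℝ) ≤ (N : ℝ) := by exact_mod_cast g
        linarith
    have h6 := h4.mul h5
    have e : δ * (1 / 2) = δ / 2 := by ring
    rw [e] at h6
    refine h6.congr' ?_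
    filter_upwards [eventually_ge_atTop 2] with N hN
    have hN0 : (0 : ℝ) < ((N / 2 : ℕ) : ℝ) := by
      have : 0 < N / 2 := by omega
      exact_mod_cast this
    rw [div_mul_div_cancel₀ hN0.ne']
  have h7 := h.sub h3
  have e : δ - δ / 2 = δ / 2 := by ring
  rw [e] at h7
  unfold Dn
  refine h7.congr fun N => ?_
  rw [key, sub_div]

/-- THE LAW FOR THE GENERALISED SYRACUSE MAPS, both signs, any finite set of odd integers -/
theorem syr_law (hd : Odd d) (hd3 : ¬ (3 : ℤ) ∣ d) {s : ℤ} (hs : s = 1 ∨ s = -1) {F : Finset ℤ}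
    (hF : ∀ y ∈ F, y % 2 = 1) : ∃ δ : ℝ, 0 ≤ δ ∧
    ((∃ a ∈ F, 0 < s * a ∧ ¬ (3 : ℤ) ∣ a) → 0 < δ) ∧
    Dn (fun n : ℕ => ∃ k : ℕ, (Td d)^[k] (s * n) ∈ F) δ ∧
    (∀ j : ℕ, Summable (fun n : {n : ℕ | n % 2 = 1 ∧ En d F j (s * n)} => (1 : ℝ) / ((n : ℕ) : ℝ))) ∧
    Tendsto (fun j : ℕ => ∑' n : {n : ℕ | n % 2 = 1 ∧ En d F j (s * n)}, (1 : ℝ) / ((n : ℕ) : ℝ)) atTop
      (𝓝 (Real.log (4 / 3) / 2 * δ)) ∧
    (∀ ε : ℝ, 0 < ε → ∃ j0 : ℕ, ∀ j : ℕ, j0 ≤ j → ∀ K : ℕ, ∑ k ∈ range K,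
      |∑' n : {n : ℕ | n % 2 = 1 ∧ En d F j (s * n) ∧ tot d j (s * n) = k + 1}, (1 : ℝ) / ((n : ℕ) : ℝ) -
        Real.log (4 / 3) / 2 * δ * ((k.choose (j - 1) : ℝ) / 2 ^ (k + 1))| ≤ ε) := by
  classical
  obtain ⟨δ, h0, h1, hD, _, _, _, _, _, hO⟩ := cell_laws hd hd3 hs F
  obtain ⟨δ', _, _, hD', _, _, _, hSm, _, _, _, hS⟩ := level_sums hd hd3 hs F
  have e : δ' = δ := tendsto_nhds_unique hD' hD
  subst e
  have hodd : ∀ n : ℕ, n % 2 = 1 → (s * (n : ℤ)) % 2 = 1 := by
    intro n hn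
    rcases hs with rfl | rfl
    · omega
    · omega
  have hlev : ∀ j n : ℕ, n % 2 = 1 → (En d F j (s * n) ↔ ∃ k : ℕ, FH d F k (s * n) ∧ od d k (s * n) = j) := by
    intro j n hn
    constructor
    · intro h
      exact ⟨tot d j (s * n), (joint hd hd3 hF j _ (hodd n hn) _).1 ⟨h, rfl⟩⟩
    · rintro ⟨k, hk⟩
      exact ((joint hd hd3 hF j _ (hodd n hn) k).2 hk).1
  have hin : ∀ j : ℕ, ∀ n ∈ {n : ℕ | n % 2 = 1 ∧ En d F j (s * n)}, fS d s F j n = (1 : ℝ) / n := by
    rintro j n ⟨g1, g2⟩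
    unfold fS
    rw [if_pos ⟨g1, (hlev j n g1).1 g2⟩]
  have hout : ∀ j : ℕ, ∀ n, n ∉ {n : ℕ | n % 2 = 1 ∧ En d F j (s * n)} → fS d s F j n = 0 := by
    intro j n hn
    unfold fS
    rw [if_neg]
    rintro ⟨g1, g2⟩
    exact hn ⟨g1, (hlev j n g1).2 g2⟩
  refine ⟨δ', h0, h1, hD, ?_, ?_, ?_⟩
  · intro j
    exact summable_cell (hin j) (hout j) (hSm j)
  · refine hS.congr fun j => ?_
    rw [tsum_cell (hin j) (hout j)]
  · intro ε hε
    obtain ⟨j0, hj0⟩ := hO ε hε
    refine ⟨j0, fun j hj K => ?_⟩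
    refine le_trans (le_of_eq ?_) (hj0 j hj K)
    apply sum_congr rfl
    intro k _
    rw [tsum_cell (s := {n : ℕ | n % 2 = 1 ∧ En d F j (s * n) ∧ tot d j (s * n) = k + 1}) (f := fY d s F (k + 1) j)]
    · rintro n ⟨g1, g2⟩
      unfold fY
      rw [if_pos ⟨g1, (joint hd hd3 hF j _ (hodd n g1) (k + 1)).1 g2⟩]
    · intro n hn
      unfold fY
      rw [if_neg]
      rintro ⟨g1, g2⟩
      exact hn ⟨g1, (joint hd hd3 hF j _ (hodd n g1) (k + 1)).2 g2⟩

end Pool.Agent.R978.ML
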