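import Pool.Agent.R978.ML.A

/-!
Levels of the generalised Syracuse maps, part 2: a one sided zero-one law.
-/

set_option autoImplicit false

namespace Pool.Agent.R978.ML

open Finset Filter Topology
open Pool.Agent.H499R2.LT
open Pool.Agent.H499R2.ND (Td Dn cop_of_not_dvd side_odd cnt cnt_eq exists_prime3')
open Pool.Agent.R344.LS

/-- ONE SIDED ZERO-ONE LAW. If the trajectories of almost all positive integers meet a finite set, then
some finite set is met by all trajectories which stay positive. -/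
theorem zero_one_pos {d : ℤ} (hd : Odd d) (hd3 : ¬ (3 : ℤ) ∣ d) (F : Finset ℤ)
    (h1 : Dn (fun n : ℕ => ∃ k : ℕ, (Td d)^[k] (1 * (n : ℤ)) ∈ F) 1) :
    ∃ F' : Finset ℤ, ∀ x : ℤ, (∀ k : ℕ, 0 < (Td d)^[k] x) → ∃ k : ℕ, (Td d)^[k] x ∈ F' := by
  classical
  have hhit : ∀ z : ℤ, ¬ (3 : ℤ) ∣ z → 0 < z → (∀ k : ℕ, (Td d)^[k] z ∉ F) →
      ∃ f ∈ F, ∃ j : ℕ, (Td d)^[j] f = z := by
    intro z hz3 hz hU
    exact Q1_hits hd hd3 (s := 1) (Or.inl rfl) F h1 hz3 (by omega) hU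
  refine ⟨F ∪ F.biUnion (fun f =>
    if h : {y : ℤ | ∃ k : ℕ, (Td d)^[k] f = y}.Finite then h.toFinset else ∅), ?_⟩
  by_contra hcon
  push Not at hcon
  obtain ⟨x, hxp, hx⟩ := hcon
  have hxF : ∀ k : ℕ, (Td d)^[k] x ∉ F := fun k hk => hx k (by
    rw [mem_union]; exact Or.inl hk)
  have hxO : ∀ k : ℕ, ∀ f ∈ F, {y : ℤ | ∃ k : ℕ, (Td d)^[k] f = y}.Finite → ∀ j : ℕ,
      (Td d)^[j] f ≠ (Td d)^[k] x := by
    intro k f hf hfin j hj
    apply hx k
    rw [mem_union]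
    right
    rw [mem_biUnion]
    refine ⟨f, hf, ?_⟩
    rw [dif_pos hfin, Set.Finite.mem_toFinset]
    exact ⟨j, hj⟩
  -- a term prime to 3
  obtain ⟨k0, hk0⟩ := exists_prime3' hd hd3 _ x (hxp 0).ne' le_rfl
  set y : ℤ := (Td d)^[k0] x with hy
  have hyit : ∀ i : ℕ, (Td d)^[i] y = (Td d)^[i + k0] x := fun i => by
    rw [hy, ← Function.iterate_add_apply]
  have hyF : ∀ k : ℕ, (Td d)^[k] y ∉ F := fun k => by rw [hyit]; exact hxF _
  have hyp : ∀ k : ℕ, 0 < (Td d)^[k] y := fun k => by rw [hyit]; exact hxp _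
  obtain ⟨f0, hf0, j0, hj0⟩ := hhit y hk0 (hyp 0) hyF
  have hinf : ¬ {y : ℤ | ∃ k : ℕ, (Td d)^[k] f0 = y}.Finite := fun hfin =>
    hxO k0 f0 hf0 hfin j0 hj0
  -- the trajectory of `y` is injective
  have hinj : ∀ i i' : ℕ, i < i' → (Td d)^[i] y ≠ (Td d)^[i'] y := by
    intro i i' hii heq
    apply hinf
    have e : ∀ n : ℕ, i + j0 ≤ n → ∃ n' : ℕ, n' < i' + j0 ∧ (Td d)^[n] f0 = (Td d)^[n'] f0 := by
      intro n
      induction n using Nat.strong_induction_on with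
      | _ n ih =>
        intro hn
        by_cases hlt : n < i' + j0
        · exact ⟨n, hlt, rfl⟩
        · push Not at hlt
          have e1 : (Td d)^[n] f0 = (Td d)^[n - (i' - i)] f0 := by
            have e2 : n = (n - (i' + j0)) + (i' + j0) := by omega
            have e3 : n - (i' - i) = (n - (i' + j0)) + (i + j0) := by omega
            rw [e3]
            conv_lhs => rw [e2]
            rw [Function.iterate_add_apply, Function.iterate_add_apply _ i' j0, hj0, ← heq, ← hj0,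
              ← Function.iterate_add_apply, ← Function.iterate_add_apply, add_assoc]
          obtain ⟨n', hn', e4⟩ := ih (n - (i' - i)) (by omega) (by omega)
          exact ⟨n', hn', by rw [e1, e4]⟩
    have hsub : {y : ℤ | ∃ k : ℕ, (Td d)^[k] f0 = y} ⊆
        ((range (i' + j0)).image fun n => (Td d)^[n] f0 : Finset ℤ) := by
      rintro w ⟨n, rfl⟩
      rw [mem_coe, mem_image]
      by_cases hn : n < i' + j0
      · exact ⟨n, mem_range.2 hn, rfl⟩
      · obtain ⟨n', hn', e4⟩ := e n (by omega)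
        exact ⟨n', mem_range.2 hn', e4.symm⟩
    exact (Finset.finite_toSet _).subset hsub
  -- the even predecessors
  have hzn : ∀ n : ℕ, ¬ ((Td d)^[n] y) % 2 = 0 →
      (Td d (2 * (Td d)^[n + 1] y) = (Td d)^[n + 1] y ∧ ¬ (3 : ℤ) ∣ 2 * (Td d)^[n + 1] y) ∧
      ∀ i : ℕ, (Td d)^[i] y ≠ 2 * (Td d)^[n + 1] y := by
    intro n hn
    have e1 : Td d (2 * (Td d)^[n + 1] y) = (Td d)^[n + 1] y := by
      rw [Q1_Td_even (by omega)]; omega
    refine ⟨⟨e1, ?_⟩, ?_⟩
    · rw [Function.iterate_succ_apply', Q1_Td_odd hn]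
      obtain ⟨t, ht⟩ := hd
      omega
    · intro i hi
      have e2 : (Td d)^[i + 1] y = (Td d)^[n + 1] y := by
        rw [Function.iterate_succ_apply', hi, e1]
      have e3 : i = n := by
        by_contra hne
        rcases lt_or_gt_of_ne hne with h | h
        · exact hinj (i + 1) (n + 1) (by omega) e2
        · exact hinj (n + 1) (i + 1) (by omega) e2.symm
      subst e3
      apply hn
      rw [hi]
      omega
  have hhz : ∀ n : ℕ, ¬ ((Td d)^[n] y) % 2 = 0 →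
      ∃ f ∈ F, ∃ j : ℕ, (Td d)^[j] f = 2 * (Td d)^[n + 1] y := by
    intro n hn
    obtain ⟨⟨e1, e2⟩, -⟩ := hzn n hn
    by_cases hzF : 2 * (Td d)^[n + 1] y ∈ F
    · exact ⟨_, hzF, 0, rfl⟩
    · apply hhit _ e2 (by have := hyp (n + 1); omega)
      intro k
      cases k with
      | zero => exact hzF
      | succ k =>
        rw [Function.iterate_succ_apply, e1, ← Function.iterate_add_apply]
        exact hyF _
  have hOdd : {n : ℕ | ¬ ((Td d)^[n] y) % 2 = 0}.Infinite := by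
    rw [Set.infinite_iff_exists_gt]
    intro N
    obtain ⟨n, hn, hn'⟩ := Q1_odd (fun k => (hyp k).ne') (N + 1)
    exact ⟨n, hn', by omega⟩
  choose! g hgF hg using hhz
  obtain ⟨n, hn, m, hm, hnm, hgnm⟩ := hOdd.exists_ne_map_eq_of_mapsTo
    (t := (F : Set ℤ)) (f := g) (fun n hn => hgF n hn) F.finite_toSet
  obtain ⟨i, hi⟩ := hg n hn
  obtain ⟨j, hj⟩ := hg m hm
  -- the later one lies on the trajectory of `y`
  have fin : ∀ (n m i j : ℕ) (f : ℤ), ¬ ((Td d)^[n] y) % 2 = 0 → ¬ ((Td d)^[m] y) % 2 = 0 →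
      (Td d)^[i] f = 2 * (Td d)^[n + 1] y → (Td d)^[j] f = 2 * (Td d)^[m + 1] y → i < j → False := by
    intro n m i j f hn hm hi hj hij
    obtain ⟨⟨e1, -⟩, -⟩ := hzn n hn
    obtain ⟨-, e2⟩ := hzn m hm
    apply e2 ((j - i - 1) + (n + 1))
    rw [Function.iterate_add_apply, ← e1, ← hi, ← Function.iterate_succ_apply' (Td d) i,
      ← Function.iterate_add_apply, ← hj]
    congr 1
    omega
  rcases lt_trichotomy i j with hij | hij | hij
  · exact fin n m i j (g n) hn hm hi (by rw [hgnm]; exact hj) hij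
  · subst hij
    rw [hgnm, hj] at hi
    have e3 : (Td d)^[m + 1] y = (Td d)^[n + 1] y := by omega
    rcases lt_or_gt_of_ne hnm with h | h
    · exact hinj (n + 1) (m + 1) (by omega) e3.symm
    · exact hinj (m + 1) (n + 1) (by omega) e3
  · exact fin m n j i (g n) hm hn (by rw [hgnm]; exact hj) hi hij

/-! ### the exceptional set -/

/-- the exceptional set: no iterate is smaller -/
def EE (d : ℤ) : Set ℤ := {n : ℤ | 0 < n ∧ n % 2 = 1 ∧ ∀ k : ℕ, n ≤ (Hs d)^[k] n}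

/-- the elements `≤ y` of the exceptional set and the odd integers in `(-|d|, 0)` -/
def Fy (d : ℤ) (y : ℕ) : Set ℤ := {x : ℤ | x % 2 = 1 ∧ ((-|d| < x ∧ x < 0) ∨ (x ∈ EE d ∧ x ≤ y))}

theorem Fy_fin (d : ℤ) (y : ℕ) : (Fy d y).Finite := by
  apply (Set.finite_Icc (-|d|) (y : ℤ)).subset
  rintro x ⟨_, ⟨h1, h2⟩ | ⟨h1, h2⟩⟩
  · exact ⟨h1.le, by omega⟩
  · have := h1.1
    have h3 := abs_nonneg d
    exact ⟨by omega, h2⟩

theorem Fy_odd {d : ℤ} {y : ℕ} : ∀ x ∈ Fy d y, x % 2 = 1 := fun _ h => h.1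

theorem Fy_mono {d : ℤ} {y y' : ℕ} (h : y ≤ y') : Fy d y ⊆ Fy d y' := by
  rintro x ⟨h0, h1 | ⟨h1, h2⟩⟩
  · exact ⟨h0, Or.inl h1⟩
  · exact ⟨h0, Or.inr ⟨h1, h2.trans (by exact_mod_cast h)⟩⟩

variable {d : ℤ}

theorem Hs_spec (hd : Odd d) (hd3 : ¬ (3 : ℤ) ∣ d) (x : ℤ) :
    ∃ v : ℕ, 3 * x + d = 2 ^ v * Hs d x ∧ Hs d x % 2 = 1 := by
  obtain ⟨v, M, h1, h2⟩ := exists_pow _ (3 * x + d) (nz hd3 x) le_rfl
  rw [Hs_eq h1 h2]
  exact ⟨v, h1, h2⟩

/-- a trajectory which leaves the positive integers lands in `(-|d|, 0)` -/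
theorem neg_bd (hd : Odd d) (hd3 : ¬ (3 : ℤ) ∣ d) {x : ℤ} (hx : 0 < x) (h : Hs d x < 0) : -|d| < Hs d x := by
  obtain ⟨v, h1, _⟩ := Hs_spec hd hd3 x
  have h2 : (1 : ℤ) ≤ 2 ^ v := one_le_pow₀ (by norm_num)
  have h3 : 2 ^ v * Hs d x ≤ Hs d x := by nlinarith
  have h4 : -|d| ≤ d := neg_abs_le d
  linarith

/-- an odd positive integer whose trajectory under the Syracuse map stays positive passes through
an element of the exceptional set, and one that is at most any given term -/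
theorem pass_E (hd : Odd d) (hd3 : ¬ (3 : ℤ) ∣ d) {x : ℤ} (hx : x % 2 = 1) (hp : ∀ j : ℕ, 0 < (Hs d)^[j] x) :
    ∃ j : ℕ, (Hs d)^[j] x ∈ EE d := by
  classical
  have hex : ∃ v : ℕ, ∃ j : ℕ, ((Hs d)^[j] x).toNat = v := ⟨_, 0, rfl⟩
  obtain ⟨j, hj⟩ := Nat.find_spec hex
  refine ⟨j, hp j, Hs_odd hd hd3 hx j, fun k => ?_⟩
  rw [← Function.iterate_add_apply]
  have h3 := Nat.find_min' hex ⟨k + j, rfl⟩
  have h4 := hp (k + j)
  have h5 := hp j
  omega

/-- if the exceptional set is bounded by `y`, all trajectories of odd positive integers meet `Fy` -/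
theorem hits_of_bdd (hd : Odd d) (hd3 : ¬ (3 : ℤ) ∣ d) {y : ℕ} (hy : ∀ e ∈ EE d, e ≤ y) {x : ℤ} (hx : x % 2 = 1)
    (hx0 : 0 < x) : ∃ j : ℕ, (Hs d)^[j] x ∈ Fy d y := by
  classical
  by_cases h : ∃ j : ℕ, (Hs d)^[j] x < 0
  · have h1 := Nat.find_spec h
    set j := Nat.find h with hj
    have h2 : ∀ i < j, 0 < (Hs d)^[i] x := by
      intro i hi
      have h3 := Nat.find_min h hi
      have h4 := Hs_odd hd hd3 hx i
      omega
    obtain ⟨i, hi⟩ : ∃ i, j = i + 1 := by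
      rcases Nat.eq_zero_or_pos j with h3 | h3
      · rw [h3] at h1
        simp only [Function.iterate_zero, id_eq] at h1
        omega
      · exact ⟨j - 1, by omega⟩
    refine ⟨j, Hs_odd hd hd3 hx j, Or.inl ⟨?_, h1⟩⟩
    rw [hi, Function.iterate_succ_apply'] at h1 ⊢
    exact neg_bd hd hd3 (h2 i (by omega)) h1
  · push Not at h
    have hp : ∀ j : ℕ, 0 < (Hs d)^[j] x := by
      intro j
      have h3 := h j
      have h4 := Hs_odd hd hd3 hx j
      omega
    obtain ⟨j, hj⟩ := pass_E hd hd3 hx hp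
    exact ⟨j, hj.2.1, Or.inr ⟨hj, hy _ hj⟩⟩

/-- from odd to all positive integers -/
theorem all_of_odd {F : Set ℤ} (hF : ∀ y ∈ F, y % 2 = 1) (h : ∀ x : ℤ, x % 2 = 1 → 0 < x → ∃ k : ℕ, (Td d)^[k] x ∈ F)
    (n : ℕ) : ∀ x : ℤ, 0 < x → x.natAbs ≤ n → ∃ k : ℕ, (Td d)^[k] x ∈ F := by
  induction n with
  | zero => intro x hx h; omega
  | succ n ih =>
    intro x hx hn
    rcases Int.emod_two_eq_zero_or_one x with h1 | h1
    · have e : x = 2 * (x / 2) := by omega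
      rw [e, hit_two hF]
      exact ih _ (by omega) (by omega)
    · exact h x h1 hx

/-- the terms of the trajectory of an element of the exceptional set stay above it -/
theorem EE_ge (hd : Odd d) (hd3 : ¬ (3 : ℤ) ∣ d) {e : ℤ} (he : e ∈ EE d) (k : ℕ) : e ≤ (Td d)^[k] e := by
  have h0 : ∀ k : ℕ, (Td d)^[k] e ≠ 0 ∧ ∃ (v j : ℕ), (Td d)^[k] e = 2 ^ v * (Hs d)^[j] e := by
    intro k
    induction k with
    | zero => exact ⟨he.1.ne', 0, 0, by simp⟩
    | succ k ih =>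
      obtain ⟨h1, v, j, h2⟩ := ih
      have ho := Hs_odd hd hd3 he.2.1 j
      rw [Function.iterate_succ_apply', h2]
      cases v with
      | zero =>
        rw [pow_zero, one_mul]
        obtain ⟨w, h3, h4⟩ := Hs_spec hd hd3 ((Hs d)^[j] e)
        have hd' := Int.odd_iff.1 hd
        cases w with
        | zero =>
          rw [pow_zero, one_mul] at h3
          omega
        | succ w =>
          have h5 : Td d ((Hs d)^[j] e) = 2 ^ w * (Hs d)^[j + 1] e := by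
            unfold Td
            rw [if_neg (by omega), h3, Function.iterate_succ_apply', pow_succ]
            have : (2 : ℤ) ^ w * 2 * Hs d ((Hs d)^[j] e) = 2 * (2 ^ w * Hs d ((Hs d)^[j] e)) := by ring
            rw [this]
            omega
          rw [h5]
          have ho' := Hs_odd hd hd3 he.2.1 (j + 1)
          refine ⟨mul_ne_zero (by positivity) (by omega), w, j + 1, rfl⟩
      | succ v =>
        have h5 : Td d (2 ^ (v + 1) * (Hs d)^[j] e) = 2 ^ v * (Hs d)^[j] e := by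
          rw [pow_succ, show (2 : ℤ) ^ v * 2 * (Hs d)^[j] e = 2 * (2 ^ v * (Hs d)^[j] e) by ring, Td_two]
        rw [h5]
        refine ⟨mul_ne_zero (by positivity) (by omega), v, j, rfl⟩
  obtain ⟨_, v, j, h2⟩ := h0 k
  rw [h2]
  have h3 := he.2.2 j
  have h4 := he.1
  have h5 : (1 : ℤ) ≤ 2 ^ v := one_le_pow₀ (by norm_num)
  nlinarith

/-- THE EXCEPTIONAL SET IS FINITE IF ALMOST ALL TRAJECTORIES MEET A FINITE SET -/
theorem EE_finite (hd : Odd d) (hd3 : ¬ (3 : ℤ) ∣ d) (F : Finset ℤ)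
    (h1 : Dn (fun n : ℕ => ∃ k : ℕ, (Td d)^[k] (1 * (n : ℤ)) ∈ F) 1) : (EE d).Finite := by
  obtain ⟨F', hF'⟩ := zero_one_pos hd hd3 F h1
  obtain ⟨b, hb⟩ : ∃ b : ℤ, ∀ f ∈ F', f ≤ b := by
    rcases F'.eq_empty_or_nonempty with h | h
    · exact ⟨0, by rw [h]; simp⟩
    · exact ⟨F'.max' h, fun f hf => F'.le_max' f hf⟩
  apply (Set.finite_Icc 0 b).subset
  intro e he
  obtain ⟨k, hk⟩ := hF' e (fun k => lt_of_lt_of_le he.1 (EE_ge hd hd3 he k))
  exact ⟨he.1.le, (EE_ge hd hd3 he k).trans (hb _ hk)⟩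

end Pool.Agent.R978.ML
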