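import Pool.Agent.R978.ML.B
import Pool.Agent.Results.MP_fd8838_nt.CaptureRate

/-!
Levels of the generalised Syracuse maps, part 3: the levels above the small elements of the
exceptional set.
-/

set_option autoImplicit false

namespace Pool.Agent.R978.ML

open Finset Filter Topology
open Pool.Agent.H499R2.LT
open Pool.Agent.H499R2.ND (Td Dn cop_of_not_dvd side_odd cnt cnt_eq)
open Pool.Agent.R344.LS
open Pool.Agent.Results.MP_fd8838_nt

theorem T_eq (d : ℤ) : CaptureRate.T 2 3 (fun _ => -d) = Td d := by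
  funext n
  unfold CaptureRate.T Td
  push_cast
  by_cases h : (2 : ℤ) ∣ n
  · rw [if_pos h, if_pos (by omega)]
  · rw [if_neg h, if_neg (by omega), sub_neg_eq_add]

variable {d : ℤ}

/-- a positive integer whose trajectory misses `Fy` has a positive trajectory -/
theorem pos_of_miss (hd : Odd d) (hd3 : ¬ (3 : ℤ) ∣ d) {y : ℕ} {n : ℤ} (hn : 0 < n)
    (h : ∀ k : ℕ, (Td d)^[k] n ∉ Fy d y) (k : ℕ) : 0 < (Td d)^[k] n := by
  induction k with
  | zero => exact hn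
  | succ k ih =>
    rw [Function.iterate_succ_apply']
    set z := (Td d)^[k] n with hz
    rcases Int.emod_two_eq_zero_or_one z with h1 | h1
    · unfold Td
      rw [if_pos h1]
      omega
    · have hd' := Int.odd_iff.1 hd
      by_contra hcon
      have h2 : Td d z = (3 * z + d) / 2 := by
        unfold Td
        rw [if_neg (by omega)]
      have h3 := nz hd3 z
      obtain ⟨v, h4, h5⟩ := Hs_spec hd hd3 z
      have h6 : Hs d z < 0 := by
        have h7 : (2 : ℤ) ^ v * Hs d z < 0 := by rw [← h4]; omega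
        have h8 : (0 : ℤ) < 2 ^ v := by positivity
        by_contra h9
        push Not at h9
        have := mul_nonneg h8.le h9
        linarith
      have h7 := neg_bd hd hd3 ih h6
      obtain ⟨j, _, hj⟩ := Hs_iter hd hd3 h1 1
      rw [Function.iterate_one] at hj
      apply h (j + k)
      rw [Function.iterate_add_apply, ← hz, hj]
      exact ⟨h5, Or.inl ⟨h7, h6⟩⟩

/-- the trajectory meets `Fy` if it meets a term `≤ y` of the exceptional set of the team's files -/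
theorem mem_of_E (hd : Odd d) (hd3 : ¬ (3 : ℤ) ∣ d) {y : ℕ} {e : ℤ} (hp : ∀ k : ℕ, 0 < (Td d)^[k] e)
    (he : e ∈ CaptureRate.E 2 3 (fun _ => -d)) (hy : e ≤ y) : e ∈ Fy d y := by
  obtain ⟨h1, h2, h3⟩ := he
  rw [T_eq] at h3
  have ho : e % 2 = 1 := by
    have : ¬ (2 : ℤ) ∣ e := by exact_mod_cast h2
    omega
  refine ⟨ho, Or.inr ⟨⟨h1, ho, fun k => ?_⟩, hy⟩⟩
  obtain ⟨j, _, hj⟩ := Hs_iter hd hd3 ho k
  rw [← hj]
  apply h3 j (fun i _ => hp i)
  have h4 := Hs_odd hd hd3 ho k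
  rw [hj]
  intro h5
  have : (2 : ℤ) ∣ (Hs d)^[k] e := by exact_mod_cast h5
  omega

/-- the hits of `Fy`, in terms of the Syracuse map -/
theorem hits_iff (hd : Odd d) (hd3 : ¬ (3 : ℤ) ∣ d) {y : ℕ} {n : ℕ} (hn : n % 2 = 1) :
    (∃ k : ℕ, (Td d)^[k] (n : ℤ) ∈ Fy d y) ↔ ∃ j : ℕ, (Hs d)^[j] (n : ℤ) ∈ Fy d y :=
  (hit_iff hd hd3 (by omega) (fun _ h => h.1)).symm

theorem rate : ∃ c : ℝ, 1 - Real.qaryEntropy 2 (Real.log 2 / Real.log 3) / Real.log 2 < c ∧ 0 < c ∧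
    ∀ d : ℤ, Odd d → ¬ (3 : ℤ) ∣ d → ∃ C : ℝ, 0 < C ∧ ∀ y : ℕ, 1 ≤ y → ∀ δ : ℝ,
      Dn (fun n : ℕ => ∃ k : ℕ, (Td d)^[k] (1 * (n : ℤ)) ∈ Fy d y) δ → 1 - δ ≤ C / (y : ℝ) ^ c := by
  classical
  obtain ⟨c, hc, hc1, h⟩ := CaptureRate.result 2 3 (by norm_num) (by norm_num) (by norm_num) (by
    have e : ((2 : ℕ) : ℝ) / (((2 : ℕ) : ℝ) - 1) = ((2 : ℕ) : ℝ) := by push_cast; norm_num
    rw [e, Real.rpow_natCast]
    norm_num)
  refine ⟨c, by simpa using hc1, hc, fun d hd hd3 => ?_⟩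
  have hd' := Int.odd_iff.1 hd
  obtain ⟨C, hC, hb⟩ := h (fun _ => -d) (by
    intro j h1 h2
    have : j = 1 := by omega
    subst this
    rw [Int.modEq_iff_dvd]
    push_cast
    omega)
  refine ⟨C, hC, fun y hy δ hδ => ?_⟩
  rw [T_eq] at hb
  have hy1 : (1 : ℝ) ≤ y := by exact_mod_cast hy
  set P : ℕ → Prop := fun n : ℕ => ∃ k : ℕ, (Td d)^[k] (1 * (n : ℤ)) ∈ Fy d y with hP
  have key : ∀ N : ℕ, 1 ≤ N → 1 - C / (y : ℝ) ^ c ≤ cnt P N / N := by
    intro N hN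
    have hN1 : (1 : ℝ) ≤ N := by exact_mod_cast hN
    have hN0 : (0 : ℝ) < N := by linarith
    have h1 := hb N y hN1 hy1
    rw [le_div_iff₀ hN0, cnt_eq]
    set S : Set ℤ := {n : ℤ | 1 ≤ n ∧ (n : ℝ) ≤ (N : ℝ) ∧ (∀ k : ℕ, 0 < (Td d)^[k] n) ∧
          ∀ k : ℕ, (Td d)^[k] n ∈ CaptureRate.E 2 3 (fun _ => -d) → (y : ℝ) < (((Td d)^[k] n : ℤ) : ℝ)} with hS
    have hSf : S.Finite := by
      apply (Set.finite_Icc (1 : ℤ) N).subset
      rintro n ⟨g1, g2, _⟩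
      exact ⟨g1, by exact_mod_cast g2⟩
    have h2 : ((Icc 1 N).filter (fun n => ¬ P n)).card ≤ S.ncard := by
      rw [← Set.ncard_coe_finset, ← Set.ncard_image_of_injective _ (Nat.cast_injective (R := ℤ))]
      apply Set.ncard_le_ncard _ hSf
      rintro z ⟨n, hn, rfl⟩
      rw [mem_coe, mem_filter, mem_Icc] at hn
      obtain ⟨⟨g1, g2⟩, g3⟩ := hn
      have g4 : ∀ k : ℕ, (Td d)^[k] (n : ℤ) ∉ Fy d y := by
        intro k hk
        apply g3
        exact ⟨k, by rw [one_mul]; exact hk⟩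
      have g5 := pos_of_miss hd hd3 (by exact_mod_cast g1 : (0 : ℤ) < n) g4
      refine ⟨by exact_mod_cast g1, by exact_mod_cast g2, g5, fun k hk => ?_⟩
      by_contra hcon
      push Not at hcon
      apply g4 k
      apply mem_of_E hd hd3 _ hk (by exact_mod_cast hcon)
      intro i
      rw [← Function.iterate_add_apply]
      exact g5 _
    have h3 : ((Icc 1 N).filter P).card + ((Icc 1 N).filter (fun n => ¬ P n)).card = N := by
      rw [card_filter_add_card_filter_not, Nat.card_Icc, Nat.add_sub_cancel]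
    have h4 : (((Icc 1 N).filter P).card : ℝ) + (((Icc 1 N).filter (fun n => ¬ P n)).card : ℝ) = N := by
      exact_mod_cast h3
    have h5 : (((Icc 1 N).filter (fun n => ¬ P n)).card : ℝ) ≤ C * N / (y : ℝ) ^ c := by
      refine le_trans ?_ h1
      exact_mod_cast h2
    have h6 : (1 - C / (y : ℝ) ^ c) * N = N - C * N / (y : ℝ) ^ c := by ring
    rw [h6]
    linarith
  have h1 : 1 - C / (y : ℝ) ^ c ≤ δ := by
    apply ge_of_tendsto hδ
    filter_upwards [eventually_ge_atTop 1] with N hN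
    exact key N hN
  linarith

theorem Dn_mono' {P Q : ℕ → Prop} {a b : ℝ} (h : ∀ n, P n → Q n) (ha : Dn P a) (hb : Dn Q b) : a ≤ b := by
  classical
  refine le_of_tendsto_of_tendsto ha hb ?_
  filter_upwards with N
  apply div_le_div_of_nonneg_right _ (Nat.cast_nonneg N)
  rw [cnt_eq, cnt_eq]
  exact_mod_cast card_le_card fun n hn => by
    rw [mem_filter] at hn ⊢
    exact ⟨hn.1, h n hn.2⟩

/-- `x` is negative, or an element `≤ y` of the exceptional set -/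
def St (d : ℤ) (y : ℕ) (x : ℤ) : Prop := x < 0 ∨ (x ∈ EE d ∧ x ≤ y)

/-- the level `j` above the elements `≤ y` of the exceptional set -/
def Lv (d : ℤ) (y j : ℕ) : Set ℕ :=
  {n : ℕ | n % 2 = 1 ∧ St d y ((Hs d)^[j] (n : ℤ)) ∧ ∀ i < j, ¬ St d y ((Hs d)^[i] (n : ℤ))}

theorem Lv_iff (hd : Odd d) (hd3 : ¬ (3 : ℤ) ∣ d) (y j n : ℕ) :
    n ∈ Lv d y j ↔ n % 2 = 1 ∧ En d (Fy_fin d y).toFinset j (1 * (n : ℤ)) := by
  unfold Lv En
  rw [Set.mem_ofPred_eq, one_mul]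
  apply and_congr_right
  intro hn
  have hx : (n : ℤ) % 2 = 1 := by omega
  have hx0 : (0 : ℤ) < n := by omega
  simp only [Set.Finite.mem_toFinset]
  have key : ∀ i : ℕ, (∀ l < i, 0 < (Hs d)^[l] (n : ℤ)) →
      (St d y ((Hs d)^[i] (n : ℤ)) ↔ (Hs d)^[i] (n : ℤ) ∈ Fy d y) := by
    intro i hi
    have ho := Hs_odd hd hd3 hx i
    constructor
    · rintro (h | ⟨h1, h2⟩)
      · refine ⟨ho, Or.inl ⟨?_, h⟩⟩
        rcases i with _ | i
        · simp only [Function.iterate_zero, id_eq] at h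
          omega
        · rw [Function.iterate_succ_apply'] at h ⊢
          exact neg_bd hd hd3 (hi i (by omega)) h
      · exact ⟨ho, Or.inr ⟨h1, h2⟩⟩
    · rintro ⟨_, ⟨h1, h2⟩ | ⟨h1, h2⟩⟩
      · exact Or.inl h2
      · exact Or.inr ⟨h1, h2⟩
  constructor
  · rintro ⟨h1, h2⟩
    have h3 : ∀ l < j, 0 < (Hs d)^[l] (n : ℤ) := by
      intro l hl
      have h4 := h2 l hl
      have ho := Hs_odd hd hd3 hx l
      by_contra hcon
      exact h4 (Or.inl (by omega))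
    refine ⟨(key j h3).1 h1, fun i hi => ?_⟩
    rw [← key i (fun l hl => h3 l (by omega))]
    exact h2 i hi
  · rintro ⟨h1, h2⟩
    have h3 : ∀ l, l ≤ j → (∀ i < l, 0 < (Hs d)^[i] (n : ℤ)) := by
      intro l
      induction l with
      | zero => intro _ i hi; omega
      | succ l ih =>
        intro hl i hi
        rcases Nat.lt_or_ge i l with h4 | h4
        · exact ih (by omega) i h4
        · have e : i = l := by omega
          subst e
          have h5 := ih (by omega)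
          have h6 := h2 i (by omega)
          rw [← key i h5] at h6
          have ho := Hs_odd hd hd3 hx i
          by_contra hcon
          exact h6 (Or.inl (by omega))
    refine ⟨(key j (h3 j le_rfl)).2 h1, fun i hi => ?_⟩
    rw [key i (h3 i hi.le)]
    exact h2 i hi

theorem cast_hits (hd : Odd d) (hd3 : ¬ (3 : ℤ) ∣ d) (y n : ℕ) (hn : n % 2 = 1) :
    (∃ k : ℕ, (Td d)^[k] (1 * (n : ℤ)) ∈ (Fy_fin d y).toFinset) ↔ ∃ j : ℕ, St d y ((Hs d)^[j] (n : ℤ)) := by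
  simp only [Set.Finite.mem_toFinset, one_mul]
  rw [hits_iff hd hd3 hn]
  have hx0 : (0 : ℤ) < n := by omega
  have hx : (n : ℤ) % 2 = 1 := by omega
  constructor
  · rintro ⟨j, _, ⟨h1, h2⟩ | ⟨h1, h2⟩⟩
    · exact ⟨j, Or.inl h2⟩
    · exact ⟨j, Or.inr ⟨h1, h2⟩⟩
  · intro h
    classical
    set j := Nat.find h with hj
    have h1 : n ∈ Lv d y j := ⟨hn, Nat.find_spec h, fun i hi => Nat.find_min h hi⟩
    rw [Lv_iff hd hd3] at h1
    have h2 := h1.2.1
    rw [Set.Finite.mem_toFinset, one_mul] at h2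
    exact ⟨j, h2⟩

/-- THE LEVELS ABOVE THE EXCEPTIONAL SET -/
theorem main : ∃ c : ℝ, 1 - Real.qaryEntropy 2 (Real.log 2 / Real.log 3) / Real.log 2 < c ∧ 0 < c ∧
    ∀ d : ℤ, Odd d → ¬ (3 : ℤ) ∣ d → ∃ δ : ℕ → ℝ, Monotone δ ∧ (∀ y, 0 ≤ δ y ∧ δ y ≤ 1) ∧
      (∃ C : ℝ, 0 < C ∧ ∀ y : ℕ, 1 ≤ y → 1 - δ y ≤ C / (y : ℝ) ^ c) ∧
      ((EE d).Finite ↔ ∃ y, δ y = 1) ∧
      ∀ y : ℕ, Dn (fun n : ℕ => n % 2 = 1 ∧ ∃ j : ℕ, St d y ((Hs d)^[j] (n : ℤ))) (δ y / 2) ∧
        (∀ j : ℕ, Summable (fun n : Lv d y j => (1 : ℝ) / ((n : ℕ) : ℝ))) ∧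
        Tendsto (fun j : ℕ => ∑' n : Lv d y j, (1 : ℝ) / ((n : ℕ) : ℝ)) atTop
          (𝓝 (Real.log (4 / 3) / 2 * δ y)) ∧
        (∀ ε : ℝ, 0 < ε → ∃ j0 : ℕ, ∀ j : ℕ, j0 ≤ j → ∀ K : ℕ, ∑ k ∈ range K,
          |∑' n : {n : ℕ | n ∈ Lv d y j ∧ tot d j (n : ℤ) = k + 1}, (1 : ℝ) / ((n : ℕ) : ℝ) -
            Real.log (4 / 3) / 2 * δ y * ((k.choose (j - 1) : ℝ) / 2 ^ (k + 1))| ≤ ε) := by
  obtain ⟨c, hc1, hc, h⟩ := rate
  refine ⟨c, hc1, hc, fun d hd hd3 => ?_⟩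
  obtain ⟨C, hC, hr⟩ := h d hd hd3
  have hall : ∀ y : ℕ, _ := fun y => syr_law hd hd3 (s := 1) (Or.inl rfl) (F := (Fy_fin d y).toFinset) (by
    intro x hx
    rw [Set.Finite.mem_toFinset] at hx
    exact hx.1)
  choose δ h0 _ hD hS hT hL using hall
  have hD' : ∀ y : ℕ, Dn (fun n : ℕ => ∃ k : ℕ, (Td d)^[k] (1 * (n : ℤ)) ∈ Fy d y) (δ y) := by
    intro y
    have := hD y
    simpa only [Set.Finite.mem_toFinset] using this
  refine ⟨δ, ?_, fun y => ⟨h0 y, Dn_le_one (hD y)⟩, ⟨C, hC, fun y hy => hr y hy _ (hD' y)⟩, ?_, ?_⟩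
  · intro y y' hy
    exact Dn_mono' (fun n => by
      rintro ⟨k, hk⟩
      exact ⟨k, Fy_mono hy hk⟩) (hD' y) (hD' y')
  · constructor
    · intro hfin
      obtain ⟨y, hy⟩ : ∃ y : ℕ, ∀ e ∈ EE d, e ≤ y := by
        obtain ⟨b, hb⟩ := hfin.bddAbove
        exact ⟨b.toNat, fun e he => (hb he).trans (Int.self_le_toNat b)⟩
      refine ⟨y, tendsto_nhds_unique (hD' y) (Dn_one fun n hn => ?_)⟩
      rw [one_mul]
      apply all_of_odd (F := Fy d y) (fun x hx => hx.1) _ n (n : ℤ) (by omega) (by omega)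
      intro x hx hx0
      rw [← hit_iff hd hd3 hx (fun _ h => h.1)]
      exact hits_of_bdd hd hd3 hy hx hx0
    · rintro ⟨y, hy⟩
      have := hD y
      rw [hy] at this
      exact EE_finite hd hd3 _ this
  · intro y
    have e1 : ∀ j : ℕ, {n : ℕ | n % 2 = 1 ∧ En d (Fy_fin d y).toFinset j (1 * (n : ℤ))} = Lv d y j := by
      intro j
      ext n
      rw [Lv_iff hd hd3]
      rfl
    have e2 : ∀ j k : ℕ, {n : ℕ | n % 2 = 1 ∧ En d (Fy_fin d y).toFinset j (1 * (n : ℤ)) ∧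
        tot d j (1 * (n : ℤ)) = k + 1} = {n : ℕ | n ∈ Lv d y j ∧ tot d j (n : ℤ) = k + 1} := by
      intro j k
      ext n
      rw [Set.mem_ofPred_eq, Set.mem_ofPred_eq, Lv_iff hd hd3, one_mul, and_assoc]
    refine ⟨?_, ?_, ?_, ?_⟩
    · have hP : ∀ n : ℕ, (∃ k : ℕ, (Td d)^[k] (1 * ((2 * n : ℕ) : ℤ)) ∈ Fy d y) ↔
          ∃ k : ℕ, (Td d)^[k] (1 * (n : ℤ)) ∈ Fy d y := by
        intro n
        rw [one_mul, one_mul]
        push_cast
        exact hit_two (fun _ h => h.1) _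
      have h1 := Dn_odd hP (hD' y)
      have e : (fun n : ℕ => n % 2 = 1 ∧ ∃ j : ℕ, St d y ((Hs d)^[j] (n : ℤ))) =
          fun n : ℕ => n % 2 = 1 ∧ ∃ k : ℕ, (Td d)^[k] (1 * (n : ℤ)) ∈ Fy d y := by
        funext n
        apply propext
        apply and_congr_right
        intro hn
        rw [← cast_hits hd hd3 y n hn]
        simp only [Set.Finite.mem_toFinset]
      rw [e]
      exact h1
    · intro j
      have := hS y j
      rw [e1] at this
      exact this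
    · refine (hT y).congr fun j => ?_
      rw [e1]
    · intro ε hε
      obtain ⟨j0, hj0⟩ := hL y ε hε
      refine ⟨j0, fun j hj K => ?_⟩
      refine le_trans (le_of_eq ?_) (hj0 j hj K)
      apply sum_congr rfl
      intro k _
      rw [e2]

end Pool.Agent.R978.ML
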