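import Pool.Agent.R344.LS.Z
import Pool.Agent.H499R2.NDCor
import Pool.Agent.Results.MP_fd8838_nt.CaptureRate

/-!
Levels above the cycles of the `3x+d` maps on the integers, and the number of cycles.
-/

set_option autoImplicit false

namespace Pool.Agent.R978.ML

open Finset Filter Topology
open Pool.Agent.H499R2.LT
open Pool.Agent.H499R2.ND (Td Dn cop_of_not_dvd side_odd cnt cnt_eq exists_prime3')
open Pool.Agent.R344.LS
open Pool.Agent.Results.MP_fd8838_nt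

/-- the cycles of `Td d` -/
def Cyc (d : ℤ) (Z : Finset ℤ) : Prop :=
  ∃ (x : ℤ) (p : ℕ), 1 ≤ p ∧ (Td d)^[p] x = x ∧ Z = (range p).image fun i => (Td d)^[i] x

theorem per_mul {f : ℤ → ℤ} {x : ℤ} {p : ℕ} (h : f^[p] x = x) (m : ℕ) : f^[m * p] x = x := by
  induction m with
  | zero => simp
  | succ m ih => rw [Nat.succ_mul, Function.iterate_add_apply, h, ih]

theorem per_mod {f : ℤ → ℤ} {x : ℤ} {p : ℕ} (h : f^[p] x = x) (k : ℕ) : f^[k] x = f^[k % p] x := by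
  conv_lhs => rw [← Nat.mod_add_div k p, Nat.mul_comm, Function.iterate_add_apply, per_mul h]

variable {d : ℤ}

theorem Cyc.mem_iff {Z : Finset ℤ} {x : ℤ} {p : ℕ} (hp : 1 ≤ p) (hx : (Td d)^[p] x = x)
    (hZ : Z = (range p).image fun i => (Td d)^[i] x) (z : ℤ) : z ∈ Z ↔ ∃ k : ℕ, (Td d)^[k] x = z := by
  rw [hZ, mem_image]
  constructor
  · rintro ⟨i, _, rfl⟩
    exact ⟨i, rfl⟩
  · rintro ⟨k, rfl⟩
    exact ⟨k % p, mem_range.2 (Nat.mod_lt _ hp), (per_mod hx k).symm⟩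

/-- a cycle is the orbit of each of its elements -/
theorem Cyc.orbit {Z : Finset ℤ} (h : Cyc d Z) {w : ℤ} (hw : w ∈ Z) (z : ℤ) :
    z ∈ Z ↔ ∃ k : ℕ, (Td d)^[k] w = z := by
  obtain ⟨x, p, hp, hx, hZ⟩ := h
  have hm := fun z => Cyc.mem_iff hp hx hZ z
  obtain ⟨j, hj⟩ := (hm w).1 hw
  constructor
  · intro hz
    obtain ⟨k, hk⟩ := (hm z).1 hz
    -- x = T^[p * (j+1) - j] w
    have h1 : (Td d)^[(j + 1) * p - j] w = x := by
      rw [← hj, ← Function.iterate_add_apply, Nat.sub_add_cancel (by nlinarith)]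
      exact per_mul hx _
    exact ⟨k + ((j + 1) * p - j), by rw [Function.iterate_add_apply, h1, hk]⟩
  · rintro ⟨k, rfl⟩
    rw [hm]
    exact ⟨k + j, by rw [Function.iterate_add_apply, hj]⟩

theorem Cyc.nonempty {Z : Finset ℤ} (h : Cyc d Z) : Z.Nonempty := by
  obtain ⟨x, p, hp, hx, hZ⟩ := h
  exact ⟨x, (Cyc.mem_iff hp hx hZ x).2 ⟨0, rfl⟩⟩

theorem Cyc.eq {Z Z' : Finset ℤ} (h : Cyc d Z) (h' : Cyc d Z') {w : ℤ} (hw : w ∈ Z) (hw' : w ∈ Z') : Z = Z' := by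
  ext z
  rw [h.orbit hw, h'.orbit hw']

theorem Cyc.step {Z : Finset ℤ} (h : Cyc d Z) {w : ℤ} (hw : w ∈ Z) (k : ℕ) : (Td d)^[k] w ∈ Z :=
  (h.orbit hw _).2 ⟨k, rfl⟩

/-- two cycles reached from the same integer are equal -/
theorem Cyc.eq_of_reach {Z Z' : Finset ℤ} (h : Cyc d Z) (h' : Cyc d Z') {x : ℤ} {k k' : ℕ}
    (hk : (Td d)^[k] x ∈ Z) (hk' : (Td d)^[k'] x ∈ Z') : Z = Z' := by
  rcases le_total k k' with hle | hle
  · apply h.eq h' (w := (Td d)^[k'] x) _ hk'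
    obtain ⟨m, rfl⟩ := Nat.exists_eq_add_of_le hle
    rw [Nat.add_comm, Function.iterate_add_apply]
    exact h.step hk m
  · apply h.eq h' (w := (Td d)^[k] x) hk
    obtain ⟨m, rfl⟩ := Nat.exists_eq_add_of_le hle
    rw [Nat.add_comm, Function.iterate_add_apply]
    exact h'.step hk' m

theorem Td_zero_iter (k : ℕ) : (Td d)^[k] 0 = 0 := by
  induction k with
  | zero => rfl
  | succ k ih =>
    rw [Function.iterate_succ_apply', ih]
    unfold Td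
    simp

theorem Cyc.zero_notMem {Z : Finset ℤ} (h : Cyc d Z) (hZ : Z ≠ {0}) : (0 : ℤ) ∉ Z := by
  intro h0
  apply hZ
  ext z
  rw [h.orbit h0, mem_singleton]
  constructor
  · rintro ⟨k, rfl⟩; exact Td_zero_iter k
  · rintro rfl; exact ⟨0, rfl⟩

/-- a cycle other than `{0}` has an element prime to `3` -/
theorem Cyc.prime3 (hd : Odd d) (hd3 : ¬ (3 : ℤ) ∣ d) {Z : Finset ℤ} (h : Cyc d Z) (hZ : Z ≠ {0}) :
    ∃ a ∈ Z, a ≠ 0 ∧ ¬ (3 : ℤ) ∣ a := by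
  obtain ⟨w, hw⟩ := h.nonempty
  have hw0 : w ≠ 0 := fun h0 => h.zero_notMem hZ (h0 ▸ hw)
  obtain ⟨k, hk⟩ := exists_prime3' hd hd3 _ w hw0 le_rfl
  refine ⟨_, h.step hw k, ?_, hk⟩
  intro h0
  rw [h0] at hk
  exact hk (dvd_zero _)

/-- the basin -/
def Bs (d s : ℤ) (Z : Finset ℤ) (n : ℕ) : Prop := ∃ k : ℕ, (Td d)^[k] (s * n) ∈ Z

/-- disjointness of the basins, counted -/
theorem sum_cnt_le {s : ℤ} (S : Finset (Finset ℤ)) (hS : ∀ Z ∈ S, Cyc d Z) (N : ℕ) (Q : ℕ → Prop)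
    (hQ : ∀ Z ∈ S, ∀ n : ℕ, 1 ≤ n → Bs d s Z n → Q n) :
    ∑ Z ∈ S, cnt (Bs d s Z) N ≤ cnt Q N := by
  classical
  simp only [cnt_eq]
  rw [← Nat.cast_sum, ← card_biUnion]
  · apply Nat.cast_le.2
    apply card_le_card
    intro n hn
    rw [mem_biUnion] at hn
    obtain ⟨Z, hZ, hn⟩ := hn
    rw [mem_filter] at hn ⊢
    exact ⟨hn.1, hQ Z hZ n (mem_Icc.1 hn.1).1 hn.2⟩
  · intro Z hZ Z' hZ' hne
    rw [Function.onFun, disjoint_filter]
    rintro n _ ⟨k, hk⟩ ⟨k', hk'⟩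
    exact hne ((hS Z hZ).eq_of_reach (hS Z' hZ') hk hk')

theorem T_eq' (d : ℤ) : Pool.Agent.H319R3.GC.Tm 2 (Pool.Agent.TH930.GH.mq 3) (fun i => if i = 0 then 0 else -d) =
    Td d := by
  have h := CaptureRate.T_eq 2 3 le_rfl (fun _ => -d)
  rw [← h]
  funext n
  unfold CaptureRate.T Td
  push_cast
  by_cases h : (2 : ℤ) ∣ n
  · rw [if_pos h, if_pos (by omega)]
  · rw [if_neg h, if_neg (by omega), sub_neg_eq_add]

/-- few integers have a trajectory which avoids `[-y, y]` -/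
theorem avoid : ∃ c : ℝ, 1 - Real.binEntropy (Real.log 2 / Real.log 3) / Real.log 2 < c ∧
    ∀ d : ℤ, Odd d → ∃ C : ℝ, 0 < C ∧ ∀ X y : ℝ, 1 ≤ X → 1 ≤ y →
      ({x : ℤ | |(x : ℝ)| ≤ X ∧ ∀ k : ℕ, y < |(((Td d)^[k] x : ℤ) : ℝ)|}.ncard : ℝ) ≤ C * X / y ^ c := by
  obtain ⟨c, hc, h⟩ := Pool.Agent.TH930.GH.moller_power (d := 2) (m := 3) le_rfl (by norm_num) (by norm_num)
    (by norm_num)
  have hq : Pool.Agent.TH930.GH.hq 2 3 = Real.binEntropy (Real.log 2 / Real.log 3) / Real.log 2 := by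
    unfold Pool.Agent.TH930.GH.hq Pool.Agent.TH930.GH.kq
    rw [Real.qaryEntropy_two]
    push_cast
    rfl
  rw [hq] at hc
  refine ⟨c, hc, fun d hd => ?_⟩
  have hd' := Int.odd_iff.1 hd
  obtain ⟨C, hC, hb⟩ := h (fun i => if i = 0 then 0 else -d) (by
    intro i hi
    interval_cases i
    · simp
    · simp only [Pool.Agent.TH930.GH.mq]
      norm_num
      omega)
  rw [T_eq'] at hb
  exact ⟨C, hC, hb⟩

/-- the levels above the cycles: the densities of the basins on both sides -/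
theorem dens_all (hd : Odd d) (hd3 : ¬ (3 : ℤ) ∣ d) : ∃ δ₁ δ₂ : Finset ℤ → ℝ, ∀ Z : Finset ℤ,
    0 ≤ δ₁ Z ∧ 0 ≤ δ₂ Z ∧ Dn (Bs d 1 Z) (δ₁ Z) ∧ Dn (Bs d (-1) Z) (δ₂ Z) ∧
    ((∃ a ∈ Z, a ≠ 0 ∧ ¬ (3 : ℤ) ∣ a) → 0 < δ₁ Z + δ₂ Z) ∧
    (∀ k : ℕ, Summable (fun x : LZ d Z k => (1 : ℝ) / |((x : ℤ) : ℝ)|)) ∧
    Tendsto (fun k : ℕ => ∑' x : LZ d Z k, (1 : ℝ) / |((x : ℤ) : ℝ)|) atTop
      (𝓝 (Real.log (4 / 3) / 2 * (δ₁ Z + δ₂ Z))) ∧
    Tendsto (fun k : ℕ => ∑ o ∈ range (k + 1),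
      |∑' x : {x : ℤ | x ≠ 0 ∧ (FH d Z k x ∧ od d k x = o)}, (1 : ℝ) / |((x : ℤ) : ℝ)| -
        Real.log (4 / 3) / 2 * (δ₁ Z + δ₂ Z) * ((k.choose o : ℝ) / 2 ^ k)|) atTop (𝓝 0) := by
  classical
  have key : ∀ Z : Finset ℤ, ∃ δ : ℝ × ℝ, 0 ≤ δ.1 ∧ 0 ≤ δ.2 ∧ Dn (Bs d 1 Z) δ.1 ∧ Dn (Bs d (-1) Z) δ.2 ∧
    ((∃ a ∈ Z, a ≠ 0 ∧ ¬ (3 : ℤ) ∣ a) → 0 < δ.1 + δ.2) ∧
    (∀ k : ℕ, Summable (fun x : LZ d Z k => (1 : ℝ) / |((x : ℤ) : ℝ)|)) ∧
    Tendsto (fun k : ℕ => ∑' x : LZ d Z k, (1 : ℝ) / |((x : ℤ) : ℝ)|) atTop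
      (𝓝 (Real.log (4 / 3) / 2 * (δ.1 + δ.2))) ∧
    Tendsto (fun k : ℕ => ∑ o ∈ range (k + 1),
      |∑' x : {x : ℤ | x ≠ 0 ∧ (FH d Z k x ∧ od d k x = o)}, (1 : ℝ) / |((x : ℤ) : ℝ)| -
        Real.log (4 / 3) / 2 * (δ.1 + δ.2) * ((k.choose o : ℝ) / 2 ^ k)|) atTop (𝓝 0) := by
    intro Z
    obtain ⟨δ₁, δ₂, a0, a1, b0, b1, h1, h2, h3, h4⟩ := both hd hd3 Z
    obtain ⟨δ₁', _, p1, c1, s1, _, u1, _⟩ := cell_laws hd hd3 (s := 1) (Or.inl rfl) Z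
    obtain ⟨δ₂', _, p2, c2, s2, _, u2, _⟩ := cell_laws hd hd3 (s := -1) (Or.inr rfl) Z
    have e1 : δ₁' = δ₁ := tendsto_nhds_unique c1 h1
    have e2 : δ₂' = δ₂ := tendsto_nhds_unique c2 h2
    subst e1
    subst e2
    refine ⟨(δ₁', δ₂'), a0, b0, h1, h2, ?_, h3, h4, ?_⟩
    · rintro ⟨a, ha, ha0, ha3⟩
      rcases lt_or_gt_of_ne ha0 with h | h
      · have := p2 ⟨a, ha, by omega, ha3⟩
        show 0 < δ₁' + δ₂'
        linarith
      · have := p1 ⟨a, ha, by omega, ha3⟩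
        show 0 < δ₁' + δ₂'
        linarith
    have key : ∀ k o : ℕ, ∑' x : {x : ℤ | x ≠ 0 ∧ (FH d Z k x ∧ od d k x = o)}, (1 : ℝ) / |((x : ℤ) : ℝ)| =
        ∑' n, fX d 1 Z k o n + ∑' n, fX d (-1) Z k o n := by
      intro k o
      apply HasSum.tsum_eq
      apply hasSum_P (P := fun x => FH d Z k x ∧ od d k x = o) _ _ _ _ (s1 k o).hasSum (s2 k o).hasSum
      · intro n hn hP
        unfold fX
        rw [one_mul, if_pos ⟨hn, hP⟩]
      · intro n hn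
        unfold fX
        rw [one_mul, if_neg hn]
      · intro n hn hP
        unfold fX
        rw [neg_one_mul, if_pos ⟨hn, hP⟩]
      · intro n hn
        unfold fX
        rw [neg_one_mul, if_neg hn]
    have h5 := u1.add u2
    rw [add_zero] at h5
    refine squeeze_zero (fun k => sum_nonneg fun _ _ => abs_nonneg _) (fun k => ?_) h5
    rw [← sum_add_distrib]
    apply sum_le_sum
    intro o _
    rw [key]
    refine le_trans (le_of_eq ?_) (abs_add_le _ _)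
    congr 1
    simp only
    ring
  choose δ hδ using key
  exact ⟨fun Z => (δ Z).1, fun Z => (δ Z).2, hδ⟩

/-- the sum of densities of disjoint basins inside `Q` -/
theorem sum_dens_le {s : ℤ} (S : Finset (Finset ℤ)) (hS : ∀ Z ∈ S, Cyc d Z) {δ : Finset ℤ → ℝ}
    (hδ : ∀ Z ∈ S, Dn (Bs d s Z) (δ Z)) (Q : ℕ → Prop)
    (hQ : ∀ Z ∈ S, ∀ n : ℕ, 1 ≤ n → Bs d s Z n → Q n) {b : ℝ} (hb : ∀ N : ℕ, 1 ≤ N → cnt Q N ≤ b * N) :
    ∑ Z ∈ S, δ Z ≤ b := by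
  have h1 : Tendsto (fun N : ℕ => ∑ Z ∈ S, cnt (Bs d s Z) N / N) atTop (𝓝 (∑ Z ∈ S, δ Z)) :=
    tendsto_finsetSum _ fun Z hZ => hδ Z hZ
  refine le_of_tendsto h1 ?_
  filter_upwards [eventually_ge_atTop 1] with N hN
  have hN0 : (0 : ℝ) < N := by exact_mod_cast hN
  rw [← Finset.sum_div, div_le_iff₀ hN0]
  exact (sum_cnt_le S hS N Q hQ).trans (hb N hN)

/-- the cycle `Z` is reached from `[-y, y]` -/
def Reached (d : ℤ) (y : ℕ) (Z : Finset ℤ) : Prop := ∃ m : ℤ, |m| ≤ y ∧ ∃ k : ℕ, (Td d)^[k] m ∈ Z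

theorem card_reached (y : ℕ) (S : Finset (Finset ℤ)) (hS : ∀ Z ∈ S, Cyc d Z ∧ Reached d y Z) :
    S.card ≤ 2 * y + 1 := by
  classical
  have h : ∀ Z ∈ S, ∃ m : ℤ, |m| ≤ y ∧ ∃ k : ℕ, (Td d)^[k] m ∈ Z := fun Z hZ => (hS Z hZ).2
  choose! g hg1 hg2 using h
  have h1 : S.card ≤ (Finset.Icc (-(y : ℤ)) y).card := by
    apply card_le_card_of_injOn g
    · intro Z hZ
      rw [coe_Icc, Set.mem_Icc]
      exact abs_le.1 (hg1 Z hZ)
    · intro Z hZ Z' hZ' he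
      obtain ⟨k, hk⟩ := hg2 Z hZ
      obtain ⟨k', hk'⟩ := hg2 Z' hZ'
      rw [← he] at hk'
      exact (hS Z hZ).1.eq_of_reach (hS Z' hZ').1 hk hk'
  rw [Int.card_Icc] at h1
  omega

/-- THE CYCLES -/
theorem cyc_main : ∃ c : ℝ, 0.049 < c ∧
    1 - Real.binEntropy (Real.log 2 / Real.log 3) / Real.log 2 < c ∧
    ∀ d : ℤ, Odd d → ¬ (3 : ℤ) ∣ d → ∃ (δ₁ δ₂ : Finset ℤ → ℝ) (C : ℝ), 0 < C ∧
      (∀ Z : Finset ℤ, Cyc d Z → Z ≠ {0} → 0 ≤ δ₁ Z ∧ 0 ≤ δ₂ Z ∧ 0 < δ₁ Z + δ₂ Z ∧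
        Dn (Bs d 1 Z) (δ₁ Z) ∧ Dn (Bs d (-1) Z) (δ₂ Z) ∧
        (∀ k : ℕ, Summable (fun x : LZ d Z k => (1 : ℝ) / |((x : ℤ) : ℝ)|)) ∧
        Tendsto (fun k : ℕ => ∑' x : LZ d Z k, (1 : ℝ) / |((x : ℤ) : ℝ)|) atTop
          (𝓝 (Real.log (4 / 3) / 2 * (δ₁ Z + δ₂ Z))) ∧
        Tendsto (fun k : ℕ => ∑ o ∈ range (k + 1),
          |∑' x : {x : ℤ | x ≠ 0 ∧ (FH d Z k x ∧ od d k x = o)}, (1 : ℝ) / |((x : ℤ) : ℝ)| -
            Real.log (4 / 3) / 2 * (δ₁ Z + δ₂ Z) * ((k.choose o : ℝ) / 2 ^ k)|) atTop (𝓝 0)) ∧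
      (∀ S : Finset (Finset ℤ), (∀ Z ∈ S, Cyc d Z ∧ Z ≠ {0}) → ∑ Z ∈ S, (δ₁ Z + δ₂ Z) ≤ 2) ∧
      (∀ y : ℕ, 1 ≤ y → ∀ S : Finset (Finset ℤ), (∀ Z ∈ S, Cyc d Z ∧ Z ≠ {0} ∧ ¬ Reached d y Z) →
        ∑ Z ∈ S, (δ₁ Z + δ₂ Z) ≤ C / (y : ℝ) ^ c) ∧
      (∀ ε : ℝ, 0 < ε → ε ≤ 1 → ∀ S : Finset (Finset ℤ),
        (∀ Z ∈ S, Cyc d Z ∧ Z ≠ {0} ∧ ε ≤ δ₁ Z + δ₂ Z) → (S.card : ℝ) ≤ C * (1 / ε) ^ (1 / (1 + c))) ∧
      ({Z : Finset ℤ | Cyc d Z}.Finite ↔ ∃ ε : ℝ, 0 < ε ∧ ∀ Z : Finset ℤ, Cyc d Z → Z ≠ {0} → ε ≤ δ₁ Z + δ₂ Z) := by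
  classical
  obtain ⟨c, hc1, h⟩ := avoid
  have hb : Real.binEntropy (Real.log 2 / Real.log 3) / Real.log 2 < 0.951 := Pool.Agent.H319R2.beta_lt
  have hc0 : 0.049 < c := by linarith
  have hcp : 0 < c := by linarith
  refine ⟨c, hc0, hc1, fun d hd hd3 => ?_⟩
  obtain ⟨C, hC, hav⟩ := h d hd
  obtain ⟨δ₁, δ₂, hδ⟩ := dens_all hd hd3
  -- total mass
  have htot : ∀ S : Finset (Finset ℤ), (∀ Z ∈ S, Cyc d Z ∧ Z ≠ {0}) → ∑ Z ∈ S, (δ₁ Z + δ₂ Z) ≤ 2 := by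
    intro S hS
    rw [sum_add_distrib]
    have g1 : ∑ Z ∈ S, δ₁ Z ≤ 1 := sum_dens_le S (fun Z hZ => (hS Z hZ).1) (s := 1)
      (fun Z _ => (hδ Z).2.2.1) (fun _ => True) (fun _ _ _ _ _ => trivial) (by
        intro N _
        rw [cnt_eq, one_mul]
        have := card_filter_le (Icc 1 N) (fun _ => True)
        rw [Nat.card_Icc, Nat.add_sub_cancel] at this
        exact_mod_cast this)
    have g2 : ∑ Z ∈ S, δ₂ Z ≤ 1 := sum_dens_le S (fun Z hZ => (hS Z hZ).1) (s := -1)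
      (fun Z _ => (hδ Z).2.2.2.1) (fun _ => True) (fun _ _ _ _ _ => trivial) (by
        intro N _
        rw [cnt_eq, one_mul]
        have := card_filter_le (Icc 1 N) (fun _ => True)
        rw [Nat.card_Icc, Nat.add_sub_cancel] at this
        exact_mod_cast this)
    linarith
  -- the tail
  have htail : ∀ y : ℕ, 1 ≤ y → ∀ S : Finset (Finset ℤ), (∀ Z ∈ S, Cyc d Z ∧ Z ≠ {0} ∧ ¬ Reached d y Z) →
        ∑ Z ∈ S, (δ₁ Z + δ₂ Z) ≤ 2 * C / (y : ℝ) ^ c := by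
    intro y hy S hS
    have hy1 : (1 : ℝ) ≤ y := by exact_mod_cast hy
    have side : ∀ s : ℤ, s = 1 ∨ s = -1 → ∀ δ : Finset ℤ → ℝ, (∀ Z ∈ S, Dn (Bs d s Z) (δ Z)) →
        ∑ Z ∈ S, δ Z ≤ C / (y : ℝ) ^ c := by
      intro s hs δ hD
      apply sum_dens_le S (fun Z hZ => (hS Z hZ).1) hD
        (fun n : ℕ => ∀ k : ℕ, (y : ℝ) < |(((Td d)^[k] (s * n) : ℤ) : ℝ)|)
      · rintro Z hZ n _ ⟨k, hk⟩ i
        by_contra hcon
        push Not at hcon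
        obtain ⟨g1, _, g3⟩ := hS Z hZ
        apply g3
        refine ⟨(Td d)^[i] (s * n), by exact_mod_cast hcon, k, ?_⟩
        rw [← Function.iterate_add_apply, Nat.add_comm, Function.iterate_add_apply]
        exact g1.step hk i
      · intro N hN
        have hN1 : (1 : ℝ) ≤ N := by exact_mod_cast hN
        have h1 := hav N y hN1 hy1
        have e : C / (y : ℝ) ^ c * N = C * N / (y : ℝ) ^ c := by ring
        rw [e]
        refine le_trans ?_ h1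
        rw [cnt_eq]
        have hinj : Function.Injective (fun n : ℕ => s * (n : ℤ)) := by
          intro a b hab
          simp only at hab
          rcases hs with rfl | rfl <;> omega
        have h2 : ((Icc 1 N).filter (fun n : ℕ => ∀ k : ℕ, (y : ℝ) < |(((Td d)^[k] (s * n) : ℤ) : ℝ)|)).card ≤
            {x : ℤ | |(x : ℝ)| ≤ (N : ℝ) ∧ ∀ k : ℕ, (y : ℝ) < |(((Td d)^[k] x : ℤ) : ℝ)|}.ncard := by
          rw [← Set.ncard_coe_finset, ← Set.ncard_image_of_injective _ hinj]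
          apply Set.ncard_le_ncard
          · rintro z ⟨n, hn, rfl⟩
            rw [mem_coe, mem_filter, mem_Icc] at hn
            refine ⟨?_, hn.2⟩
            have g1 : |(s : ℝ)| = 1 := by rcases hs with rfl | rfl <;> simp
            push_cast
            rw [abs_mul, g1, one_mul, Nat.abs_cast]
            exact_mod_cast hn.1.2
          · apply (Set.finite_Icc (-(N : ℤ)) N).subset
            rintro x ⟨g1, _⟩
            rw [Set.mem_Icc, ← abs_le]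
            exact_mod_cast g1
        exact_mod_cast h2
    rw [sum_add_distrib]
    have g1 := side 1 (Or.inl rfl) δ₁ (fun Z _ => (hδ Z).2.2.1)
    have g2 := side (-1) (Or.inr rfl) δ₂ (fun Z _ => (hδ Z).2.2.2.1)
    have e : 2 * C / (y : ℝ) ^ c = C / (y : ℝ) ^ c + C / (y : ℝ) ^ c := by ring
    rw [e]
    exact add_le_add g1 g2
  -- the count
  have hcount : ∀ ε : ℝ, 0 < ε → ε ≤ 1 → ∀ S : Finset (Finset ℤ),
        (∀ Z ∈ S, Cyc d Z ∧ Z ≠ {0} ∧ ε ≤ δ₁ Z + δ₂ Z) →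
        (S.card : ℝ) ≤ (5 + 2 * C) * (1 / ε) ^ (1 / (1 + c)) := by
    intro ε hε hε1 S hS
    set R : ℝ := (1 / ε) ^ (1 / (1 + c)) with hR
    have hε' : 1 ≤ 1 / ε := by rw [le_div_iff₀ hε]; linarith
    have hR1 : 1 ≤ R := Real.one_le_rpow hε' (by positivity)
    have hRp : 0 < R := by linarith
    set y : ℕ := ⌈R⌉₊ with hy
    have hy1 : 1 ≤ y := by
      rw [hy, Nat.one_le_ceil_iff]
      exact hRp
    have hyR : R ≤ y := Nat.le_ceil R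
    have hyR' : (y : ℝ) < R + 1 := Nat.ceil_lt_add_one hRp.le
    have h1 : ((S.filter (fun Z => Reached d y Z)).card : ℝ) ≤ 2 * y + 1 := by
      have := card_reached (d := d) y (S.filter (fun Z => Reached d y Z)) (fun Z hZ => by
        rw [mem_filter] at hZ
        exact ⟨(hS Z hZ.1).1, hZ.2⟩)
      exact_mod_cast this
    have h2 : ((S.filter (fun Z => ¬ Reached d y Z)).card : ℝ) * ε ≤ 2 * C / (y : ℝ) ^ c := by
      have g1 := htail y hy1 (S.filter (fun Z => ¬ Reached d y Z)) (fun Z hZ => by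
        rw [mem_filter] at hZ
        exact ⟨(hS Z hZ.1).1, (hS Z hZ.1).2.1, hZ.2⟩)
      refine le_trans ?_ g1
      rw [← nsmul_eq_mul]
      apply card_nsmul_le_sum
      intro Z hZ
      rw [mem_filter] at hZ
      exact (hS Z hZ.1).2.2
    have h3 : (1 / ε) / R ^ c = R := by
      have e1 : R ^ c * R = 1 / ε := by
        have e2 : R ^ c * R = R ^ (c + 1) := by rw [Real.rpow_add hRp, Real.rpow_one]
        rw [e2, hR, ← Real.rpow_mul (by positivity)]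
        have e3 : 1 / (1 + c) * (c + 1) = 1 := by
          have : (1 + c) ≠ 0 := by positivity
          field_simp
          ring
        rw [e3, Real.rpow_one]
      rw [div_eq_iff (by positivity), mul_comm]
      exact e1.symm
    have h4 : ((S.filter (fun Z => ¬ Reached d y Z)).card : ℝ) ≤ 2 * C * R := by
      have g1 : 2 * C / (y : ℝ) ^ c ≤ 2 * C / R ^ c := by
        apply div_le_div_of_nonneg_left (by positivity) (by positivity)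
        exact Real.rpow_le_rpow hRp.le hyR hcp.le
      have g2 : ((S.filter (fun Z => ¬ Reached d y Z)).card : ℝ) ≤ 2 * C / R ^ c * (1 / ε) := by
        rw [mul_one_div, le_div_iff₀ hε]
        exact h2.trans g1
      refine g2.trans (le_of_eq ?_)
      have e5 : 2 * C / R ^ c * (1 / ε) = 2 * C * ((1 / ε) / R ^ c) := by ring
      rw [e5, h3]
    have h5 : (S.card : ℝ) = ((S.filter (fun Z => Reached d y Z)).card : ℝ) +
        ((S.filter (fun Z => ¬ Reached d y Z)).card : ℝ) := by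
      exact_mod_cast (card_filter_add_card_filter_not (s := S) (fun Z => Reached d y Z)).symm
    rw [h5]
    nlinarith
  refine ⟨δ₁, δ₂, 5 + 2 * C, by linarith, ?_, htot, ?_, hcount, ?_⟩
  · intro Z hZ hZ0
    obtain ⟨g1, g2, g3, g4, g5, g6, g7, g8⟩ := hδ Z
    exact ⟨g1, g2, g5 (hZ.prime3 hd hd3 hZ0), g3, g4, g6, g7, g8⟩
  · intro y hy S hS
    refine (htail y hy S hS).trans ?_
    have hy1 : (1 : ℝ) ≤ y := by exact_mod_cast hy
    apply div_le_div_of_nonneg_right _ (by positivity)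
    linarith
  · constructor
    · intro hfin
      by_cases hne : ((hfin.toFinset).filter (fun Z => Z ≠ {0})).Nonempty
      · obtain ⟨Z0, hZ0, hmin⟩ := exists_min_image _ (fun Z => δ₁ Z + δ₂ Z) hne
        rw [mem_filter, Set.Finite.mem_toFinset] at hZ0
        refine ⟨δ₁ Z0 + δ₂ Z0, (hδ Z0).2.2.2.2.1 (Cyc.prime3 hd hd3 hZ0.1 hZ0.2), fun Z hZ hZ' => ?_⟩
        apply hmin
        rw [mem_filter, Set.Finite.mem_toFinset]
        exact ⟨hZ, hZ'⟩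
      · refine ⟨1, one_pos, fun Z hZ hZ' => ?_⟩
        exfalso
        apply hne
        refine ⟨Z, ?_⟩
        rw [mem_filter, Set.Finite.mem_toFinset]
        exact ⟨hZ, hZ'⟩
    · rintro ⟨ε, hε, hεZ⟩
      by_contra hinf
      have hinf' : ({Z : Finset ℤ | Cyc d Z} \ {{0}}).Infinite := by
        apply Set.Infinite.sdiff hinf (Set.finite_singleton _)
      obtain ⟨S, hS, hcard⟩ := hinf'.exists_subset_card_eq (⌊2 / ε⌋₊ + 1)
      have h1 := htot S (fun Z hZ => hS (mem_coe.2 hZ))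
      have h2 : (S.card : ℝ) * ε ≤ ∑ Z ∈ S, (δ₁ Z + δ₂ Z) := by
        rw [← nsmul_eq_mul]
        apply card_nsmul_le_sum
        intro Z hZ
        exact hεZ Z (hS (mem_coe.2 hZ)).1 (hS (mem_coe.2 hZ)).2
      rw [hcard] at h2
      have h3 := Nat.lt_floor_add_one (2 / ε)
      rw [div_lt_iff₀ hε] at h3
      push_cast at h2
      linarith

end Pool.Agent.R978.ML
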