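import Pool.Agent.R978.ML.C

/-!
The minima of the trajectories of the generalised Syracuse maps.
-/

set_option autoImplicit false

namespace Pool.Agent.R978.ML

open Finset Filter Topology
open Pool.Agent.H499R2.LT
open Pool.Agent.H499R2.ND (Td Dn cop_of_not_dvd side_odd cnt cnt_eq)
open Pool.Agent.R344.LS

variable {d : ℤ}

/-- `e` is the minimum of the trajectory of `n` -/
def Mn (d e n : ℤ) : Prop := (∃ j : ℕ, (Hs d)^[j] n = e) ∧ ∀ i : ℕ, e ≤ (Hs d)^[i] n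

/-- the odd integers in `(-|d|, 0)` and in `(0, e]` -/
def Fe (d e : ℤ) : Set ℤ := {x : ℤ | x % 2 = 1 ∧ ((-|d| < x ∧ x < 0) ∨ (0 < x ∧ x ≤ e))}

/-- without `e` -/
def Ge (d e : ℤ) : Set ℤ := {x : ℤ | x % 2 = 1 ∧ ((-|d| < x ∧ x < 0) ∨ (0 < x ∧ x < e))}

theorem Fe_fin (d e : ℤ) : (Fe d e).Finite := by
  apply (Set.finite_Icc (-|d|) (|e|)).subset
  rintro x ⟨_, ⟨h1, h2⟩ | ⟨h1, h2⟩⟩
  · have := abs_nonneg e
    exact ⟨h1.le, by omega⟩
  · have h3 := abs_nonneg d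
    have h4 := le_abs_self e
    exact ⟨by omega, by omega⟩

theorem Ge_fin (d e : ℤ) : (Ge d e).Finite := by
  apply (Fe_fin d e).subset
  rintro x ⟨h0, ⟨h1, h2⟩ | ⟨h1, h2⟩⟩
  · exact ⟨h0, Or.inl ⟨h1, h2⟩⟩
  · exact ⟨h0, Or.inr ⟨h1, h2.le⟩⟩

/-- the positive integers whose trajectory meets `S` -/
def Ht (d : ℤ) (S : Set ℤ) (n : ℕ) : Prop := ∃ k : ℕ, (Td d)^[k] (n : ℤ) ∈ S

theorem Ht_dens (hd : Odd d) (hd3 : ¬ (3 : ℤ) ∣ d) {S : Set ℤ} (hS : S.Finite) : ∃ δ : ℝ, 0 ≤ δ ∧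
    ((∃ a ∈ S, 0 < a ∧ ¬ (3 : ℤ) ∣ a) → 0 < δ) ∧ Dn (Ht d S) δ := by
  obtain ⟨δ, h0, h1, h2, _⟩ := level_sums hd hd3 (s := 1) (Or.inl rfl) hS.toFinset
  refine ⟨δ, h0, ?_, ?_⟩
  · rintro ⟨a, ha, ha0, ha3⟩
    exact h1 ⟨a, by rwa [Set.Finite.mem_toFinset], by omega, ha3⟩
  · have e : (fun n : ℕ => ∃ k : ℕ, (Td d)^[k] (1 * (n : ℤ)) ∈ hS.toFinset) = Ht d S := by
      funext n
      unfold Ht
      simp only [Set.Finite.mem_toFinset, one_mul]
    rwa [e] at h2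

theorem Fe_odd {e : ℤ} : ∀ x ∈ Fe d e, x % 2 = 1 := fun _ h => h.1
theorem Ge_odd {e : ℤ} : ∀ x ∈ Ge d e, x % 2 = 1 := fun _ h => h.1

/-- a trajectory of the Syracuse map with a negative term meets `(-|d|, 0)` -/
theorem neg_first (hd : Odd d) (hd3 : ¬ (3 : ℤ) ∣ d) {x : ℤ} (hx : x % 2 = 1) (hx0 : 0 < x)
    (h : ∃ j : ℕ, (Hs d)^[j] x < 0) : ∃ j : ℕ, -|d| < (Hs d)^[j] x ∧ (Hs d)^[j] x < 0 := by
  classical
  have h1 := Nat.find_spec h
  set j := Nat.find h with hj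
  obtain ⟨i, hi⟩ : ∃ i, j = i + 1 := by
    rcases Nat.eq_zero_or_pos j with h3 | h3
    · rw [h3] at h1
      simp only [Function.iterate_zero, id_eq] at h1
      omega
    · exact ⟨j - 1, by omega⟩
  have h3 := Nat.find_min h (m := i) (by omega)
  have h4 := Hs_odd hd hd3 hx i
  refine ⟨j, ?_, h1⟩
  rw [hi, Function.iterate_succ_apply'] at h1 ⊢
  exact neg_bd hd hd3 (by omega) h1

/-- the minimum in terms of the sets `Fe`, `Ge` -/
theorem Mn_iff (hd : Odd d) (hd3 : ¬ (3 : ℤ) ∣ d) {e : ℤ} (he : e ∈ EE d) {n : ℕ} (hn : n % 2 = 1) :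
    Mn d e n ↔ (Ht d (Fe d e) n ∧ ¬ Ht d (Ge d e) n) := by
  have hx : (n : ℤ) % 2 = 1 := by omega
  have hx0 : (0 : ℤ) < n := by omega
  unfold Ht
  rw [← hit_iff hd hd3 hx Fe_odd, ← hit_iff hd hd3 hx Ge_odd]
  constructor
  · rintro ⟨⟨j, hj⟩, h2⟩
    refine ⟨⟨j, ?_⟩, ?_⟩
    · rw [hj]
      exact ⟨he.2.1, Or.inr ⟨he.1, le_rfl⟩⟩
    · rintro ⟨i, hi⟩
      have h3 := h2 i
      have h4 := he.1
      rcases hi.2 with ⟨_, h⟩ | ⟨_, h⟩
      · omega
      · omega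
  · rintro ⟨⟨j, hj⟩, h2⟩
    push Not at h2
    have hneg : ∀ i : ℕ, 0 < (Hs d)^[i] (n : ℤ) := by
      intro i
      by_contra hcon
      have h3 := Hs_odd hd hd3 hx i
      obtain ⟨l, h4, h5⟩ := neg_first hd hd3 hx hx0 ⟨i, by omega⟩
      exact h2 l ⟨Hs_odd hd hd3 hx l, Or.inl ⟨h4, h5⟩⟩
    have hge : ∀ i : ℕ, e ≤ (Hs d)^[i] (n : ℤ) := by
      intro i
      by_contra hcon
      exact h2 i ⟨Hs_odd hd hd3 hx i, Or.inr ⟨hneg i, by omega⟩⟩
    refine ⟨⟨j, ?_⟩, hge⟩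
    have h3 := hneg j
    have h4 := hge j
    rcases hj.2 with ⟨_, h⟩ | ⟨_, h⟩
    · omega
    · omega

/-- the difference of densities -/
theorem Dn_diff {P Q : ℕ → Prop} {a b : ℝ} (hPQ : ∀ n, Q n → P n) (ha : Dn P a) (hb : Dn Q b) :
    Dn (fun n => P n ∧ ¬ Q n) (a - b) := by
  classical
  have h := ha.sub hb
  unfold Dn
  refine h.congr fun N => ?_
  rw [← sub_div]
  congr 1
  rw [cnt_eq, cnt_eq, cnt_eq]
  have h1 : ((Icc 1 N).filter P).card = ((Icc 1 N).filter (fun n => P n ∧ ¬ Q n)).card + ((Icc 1 N).filter Q).card := by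
    rw [← card_union_of_disjoint]
    · congr 1
      ext n
      simp only [mem_union, mem_filter]
      constructor
      · rintro ⟨g1, g2⟩
        by_cases g : Q n
        · exact Or.inr ⟨g1, g⟩
        · exact Or.inl ⟨g1, g2, g⟩
      · rintro (⟨g1, g2, _⟩ | ⟨g1, g2⟩)
        · exact ⟨g1, g2⟩
        · exact ⟨g1, hPQ n g2⟩
    · rw [disjoint_filter]
      rintro n _ ⟨_, g⟩ g'
      exact g g'
  rw [h1]
  push_cast
  ring

theorem Ge_sub_Fe {e : ℤ} : Ge d e ⊆ Fe d e := by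
  rintro x ⟨h0, ⟨h1, h2⟩ | ⟨h1, h2⟩⟩
  · exact ⟨h0, Or.inl ⟨h1, h2⟩⟩
  · exact ⟨h0, Or.inr ⟨h1, h2.le⟩⟩

/-- in the trajectory of an integer which reaches `e` only finitely many `2 ^ j e` occur -/
theorem fin_pow {e w : ℤ} (he : 0 < e) {a : ℕ} (ha : (Td d)^[a] w = e) :
    {j : ℕ | ∃ b : ℕ, (Td d)^[b] w = 2 ^ j * e}.Finite := by
  have hdown : ∀ j : ℕ, (Td d)^[j] (2 ^ j * e) = e := fun j => by
    rw [Td_pow d j e j le_rfl]; simp
  have hinj : Function.Injective (fun j : ℕ => (2 : ℤ) ^ j * e) := by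
    intro i j hij
    simp only at hij
    have h1 := mul_right_cancel₀ he.ne' hij
    exact Int.pow_right_injective (by norm_num) h1
  by_cases hper : ∃ p : ℕ, 1 ≤ p ∧ (Td d)^[p] e = e
  · obtain ⟨p, hp, hpe⟩ := hper
    have horb : {z : ℤ | ∃ b : ℕ, (Td d)^[b] w = z}.Finite := by
      apply ((range (a + p)).image (fun b => (Td d)^[b] w)).finite_toSet.subset
      rintro z ⟨b, rfl⟩
      rw [mem_coe, mem_image]
      induction b using Nat.strong_induction_on with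
      | _ b ih =>
        rcases lt_or_ge b (a + p) with h | h
        · exact ⟨b, mem_range.2 h, rfl⟩
        · have h1 : (Td d)^[b] w = (Td d)^[b - p] w := by
            conv_lhs => rw [show b = (b - p - a) + (p + a) by omega, Function.iterate_add_apply,
              Function.iterate_add_apply, ha, hpe, ← ha, ← Function.iterate_add_apply, show b - p - a + a = b - p by omega]
          rw [h1]
          exact ih (b - p) (by omega)
    apply (horb.preimage (f := fun j : ℕ => (2 : ℤ) ^ j * e) hinj.injOn).subset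
    rintro j ⟨b, hb⟩
    exact ⟨b, hb⟩
  · apply (((range (a + 1)).image (fun b => (Td d)^[b] w)).finite_toSet.preimage
      (f := fun j : ℕ => (2 : ℤ) ^ j * e) hinj.injOn).subset
    rintro j ⟨b, hb⟩
    rw [Set.mem_preimage, mem_coe, mem_image]
    refine ⟨b, mem_range.2 ?_, hb⟩
    by_contra hcon
    apply hper
    refine ⟨j + (b - a), by omega, ?_⟩
    rw [Function.iterate_add_apply]
    have h1 : (Td d)^[b - a] e = 2 ^ j * e := by
      rw [← hb, ← ha, ← Function.iterate_add_apply]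
      congr 1
      omega
    rw [h1, hdown]

/-- the density of the minima: existence and positivity -/
theorem Mn_dens (hd : Odd d) (hd3 : ¬ (3 : ℤ) ∣ d) {e : ℤ} (he : e ∈ EE d) : ∃ δ : ℝ, 0 ≤ δ ∧
    (¬ (3 : ℤ) ∣ e → 0 < δ) ∧ Dn (fun n => Ht d (Fe d e) n ∧ ¬ Ht d (Ge d e) n) δ := by
  classical
  obtain ⟨a, _, _, ha⟩ := Ht_dens hd hd3 (Fe_fin d e)
  obtain ⟨b, _, _, hb⟩ := Ht_dens hd hd3 (Ge_fin d e)
  have hQ : ∀ n, Ht d (Ge d e) n → Ht d (Fe d e) n := fun n ⟨k, hk⟩ => ⟨k, Ge_sub_Fe hk⟩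
  have hD := Dn_diff hQ ha hb
  refine ⟨a - b, sub_nonneg.2 (Dn_mono' hQ hb ha), fun he3 => ?_, hD⟩
  -- a large `2 ^ j e` which is not in the trajectory of an element of `Ge`
  have hfin : {j : ℕ | ∃ w ∈ Ge d e, ∃ b : ℕ, (Td d)^[b] w = 2 ^ j * e}.Finite := by
    have h1 : {j : ℕ | ∃ w ∈ Ge d e, ∃ b : ℕ, (Td d)^[b] w = 2 ^ j * e} =
        ⋃ w ∈ Ge d e, {j : ℕ | ∃ b : ℕ, (Td d)^[b] w = 2 ^ j * e} := by
      ext j
      simp only [Set.mem_ofPred_eq, Set.mem_iUnion, exists_prop]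
    rw [h1]
    apply (Ge_fin d e).biUnion
    intro w _
    rcases Set.eq_empty_or_nonempty {j : ℕ | ∃ b : ℕ, (Td d)^[b] w = 2 ^ j * e} with h | ⟨j, b, hb⟩
    · rw [h]; exact Set.finite_empty
    · apply fin_pow he.1 (a := j + b)
      rw [Function.iterate_add_apply, hb, Td_pow d j e j le_rfl]
      simp
  obtain ⟨j, hj⟩ := hfin.exists_notMem
  rw [Set.mem_ofPred_eq] at hj
  push Not at hj
  set z : ℤ := 2 ^ j * e with hz
  have hz0 : 0 < z := by have := he.1; positivity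
  have hz3 : ¬ (3 : ℤ) ∣ z := by
    rw [hz]
    intro h
    rcases (Int.prime_three.dvd_mul).1 h with h | h
    · have := Int.prime_three.dvd_of_dvd_pow h
      omega
    · exact he3 h
  obtain ⟨c, _, hc, hcD⟩ := Ht_dens hd hd3 (Set.finite_singleton z)
  have hcp : 0 < c := hc ⟨z, rfl, hz0, hz3⟩
  have hzdown : ∀ l : ℕ, e ≤ (Td d)^[l] z := by
    intro l
    rcases le_total l j with h | h
    · rw [hz, Td_pow d j e l h]
      have h1 := he.1
      have h2 : (1 : ℤ) ≤ 2 ^ (j - l) := one_le_pow₀ (by norm_num)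
      nlinarith
    · obtain ⟨m, rfl⟩ := Nat.exists_eq_add_of_le h
      rw [Nat.add_comm, Function.iterate_add_apply, hz, Td_pow d j e j le_rfl]
      simp only [Nat.sub_self, pow_zero, one_mul]
      exact EE_ge hd hd3 he m
  have hsub : ∀ n, Ht d {z} n → (Ht d (Fe d e) n ∧ ¬ Ht d (Ge d e) n) := by
    rintro n ⟨k, hk⟩
    have hk' : (Td d)^[k] (n : ℤ) = z := hk
    refine ⟨⟨j + k, ?_⟩, ?_⟩
    · rw [Function.iterate_add_apply, hk', hz, Td_pow d j e j le_rfl]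
      simp only [Nat.sub_self, pow_zero, one_mul]
      exact ⟨he.2.1, Or.inr ⟨he.1, le_rfl⟩⟩
    · rintro ⟨l, hl⟩
      rcases le_total l k with h | h
      · apply hj _ hl (k - l)
        rw [← Function.iterate_add_apply, Nat.sub_add_cancel h]
        exact hk'
      · obtain ⟨m, rfl⟩ := Nat.exists_eq_add_of_le h
        rw [Nat.add_comm, Function.iterate_add_apply, hk'] at hl
        have h1 := hzdown m
        have h2 := he.1
        rcases hl.2 with ⟨_, h3⟩ | ⟨_, h3⟩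
        · omega
        · omega
  exact lt_of_lt_of_le hcp (Dn_mono' hsub hcD hD)

/-- the minimum is unique -/
theorem Mn_unique {e e' n : ℤ} (h : Mn d e n) (h' : Mn d e' n) : e = e' := by
  obtain ⟨⟨j, hj⟩, h2⟩ := h
  obtain ⟨⟨j', hj'⟩, h2'⟩ := h'
  have h3 := h2 j'
  have h4 := h2' j
  omega

/-- the property of positive integers that the trajectory meets `Fe` but not `Ge` -/
def Qe (d e : ℤ) (n : ℕ) : Prop := Ht d (Fe d e) n ∧ ¬ Ht d (Ge d e) n

theorem Ht_two {S : Set ℤ} (hS : ∀ y ∈ S, y % 2 = 1) (n : ℕ) : Ht d S (2 * n) ↔ Ht d S n := by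
  unfold Ht
  push_cast
  exact hit_two hS _

theorem Qe_two (e : ℤ) (n : ℕ) : Qe d e (2 * n) ↔ Qe d e n := by
  unfold Qe
  rw [Ht_two Fe_odd, Ht_two Ge_odd]

/-- the trajectory hits `e` and stays above before -/
theorem Qe_ge {e : ℤ} {n : ℕ} (h : Qe d e n) : (∃ k : ℕ, (Td d)^[k] (n : ℤ) = e) ∧ 0 < e := by
  obtain ⟨⟨k, hk⟩, h2⟩ := h
  have h3 : (Td d)^[k] (n : ℤ) ∉ Ge d e := fun h => h2 ⟨k, h⟩
  obtain ⟨ho, h4 | ⟨h4, h5⟩⟩ := hk
  · exact absurd ⟨ho, Or.inl h4⟩ h3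
  · have h6 : (Td d)^[k] (n : ℤ) = e := by
      by_contra hne
      exact h3 ⟨ho, Or.inr ⟨h4, lt_of_le_of_ne h5 hne⟩⟩
    exact ⟨⟨k, h6⟩, by omega⟩

theorem Qe_unique {e e' : ℤ} (he : e ∈ EE d) (he' : e' ∈ EE d) {n : ℕ} (h : Qe d e n) (h' : Qe d e' n) : e = e' := by
  by_contra hne
  have key : ∀ e e' : ℤ, e ∈ EE d → e < e' → Qe d e n → Qe d e' n → False := by
    intro e e' he hlt h h'
    obtain ⟨⟨k, hk⟩, h0⟩ := Qe_ge h
    exact h'.2 ⟨k, by rw [hk]; exact ⟨he.2.1, Or.inr ⟨h0, hlt⟩⟩⟩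
  rcases lt_or_gt_of_ne hne with h1 | h1
  · exact key e e' he h1 h h'
  · exact key e' e he' h1 h' h

/-- the sum of the densities over a finite part of `E`, and an excluded set -/
theorem sum_Qe_le {S : Finset ℤ} (hS : ∀ e ∈ S, e ∈ EE d) {δ : ℤ → ℝ} (hδ : ∀ e ∈ S, Dn (Qe d e) (δ e))
    {P : ℕ → Prop} {b : ℝ} (hP : Dn P b) (hdis : ∀ e ∈ S, ∀ n, Qe d e n → ¬ P n) :
    ∑ e ∈ S, δ e + b ≤ 1 := by
  classical
  have h1 : Tendsto (fun N : ℕ => ∑ e ∈ S, cnt (Qe d e) N / N + cnt P N / N) atTop (𝓝 (∑ e ∈ S, δ e + b)) :=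
    (tendsto_finsetSum _ fun e he => hδ e he).add hP
  refine le_of_tendsto h1 ?_
  filter_upwards [eventually_ge_atTop 1] with N hN
  have hN0 : (0 : ℝ) < N := by exact_mod_cast hN
  rw [← Finset.sum_div, ← add_div, div_le_one hN0]
  simp only [cnt_eq]
  have h2 : ∑ e ∈ S, ((Icc 1 N).filter (Qe d e)).card = (S.biUnion (fun e => (Icc 1 N).filter (Qe d e))).card := by
    rw [card_biUnion]
    intro e he e' he' hne
    rw [Function.onFun, disjoint_filter]
    intro n _ h h'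
    exact hne (Qe_unique (hS e he) (hS e' he') h h')
  have h3 : (S.biUnion (fun e => (Icc 1 N).filter (Qe d e))).card + ((Icc 1 N).filter P).card ≤ N := by
    rw [← card_union_of_disjoint]
    · have h4 : (S.biUnion (fun e => (Icc 1 N).filter (Qe d e)) ∪ (Icc 1 N).filter P) ⊆ Icc 1 N := by
        intro n hn
        rw [mem_union, mem_biUnion] at hn
        rcases hn with ⟨e, _, hn⟩ | hn
        · exact (mem_filter.1 hn).1
        · exact (mem_filter.1 hn).1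
      have := card_le_card h4
      rwa [Nat.card_Icc, Nat.add_sub_cancel] at this
    · rw [disjoint_left]
      intro n hn hn'
      rw [mem_biUnion] at hn
      obtain ⟨e, he, hn⟩ := hn
      exact hdis e he n (mem_filter.1 hn).2 (mem_filter.1 hn').2
  have h5 : (∑ e ∈ S, (((Icc 1 N).filter (Qe d e)).card : ℝ)) + (((Icc 1 N).filter P).card : ℝ) ≤ N := by
    rw [← h2] at h3
    exact_mod_cast h3
  exact h5

/-- the odd integers in `(-|d|, 0)` -/
def Ne (d : ℤ) : Set ℤ := {x : ℤ | x % 2 = 1 ∧ -|d| < x ∧ x < 0}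

theorem Ne_fin (d : ℤ) : (Ne d).Finite := by
  apply (Set.finite_Icc (-|d|) 0).subset
  rintro x ⟨_, h1, h2⟩
  exact ⟨h1.le, h2.le⟩

/-- either the trajectory becomes negative, or it meets `Fy` in the minimum, or it misses `Fy` -/
theorem split_Fy (hd : Odd d) (hd3 : ¬ (3 : ℤ) ∣ d) {y : ℕ} {n : ℕ} (hn : 1 ≤ n) (h : Ht d (Fy d y) n) :
    Ht d (Ne d) n ∨ ∃ e ∈ EE d, e ≤ y ∧ Qe d e n := by
  classical
  by_cases hneg : Ht d (Ne d) n
  · exact Or.inl hneg
  right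
  -- the values of the trajectory in `EE ∩ [1, y]`
  obtain ⟨k, hk⟩ := h
  obtain ⟨ho, hk2 | ⟨hkE, hky⟩⟩ := hk
  · exact absurd ⟨k, ho, hk2⟩ hneg
  have hex : ∃ v : ℕ, ∃ k : ℕ, (Td d)^[k] (n : ℤ) ∈ EE d ∧ ((Td d)^[k] (n : ℤ)).toNat = v := ⟨_, k, hkE, rfl⟩
  obtain ⟨l, hl, hlv⟩ := Nat.find_spec hex
  have hmin : ∀ i : ℕ, (Td d)^[i] (n : ℤ) ∈ EE d → (Td d)^[l] (n : ℤ) ≤ (Td d)^[i] (n : ℤ) := by
    intro i hi
    have h3 := Nat.find_min' hex ⟨i, hi, rfl⟩
    have h4 := hl.1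
    have h5 := hi.1
    omega
  set e := (Td d)^[l] (n : ℤ) with he
  refine ⟨e, hl, (hmin k hkE).trans hky, ⟨l, hl.2.1, Or.inr ⟨hl.1, le_rfl⟩⟩, ?_⟩
  rintro ⟨i, ho', hi | ⟨hi1, hi2⟩⟩
  · exact hneg ⟨i, ho', hi⟩
  · -- from a positive odd term the trajectory stays positive and passes through its minimum
    set w := (Td d)^[i] (n : ℤ) with hw
    have hp : ∀ j : ℕ, 0 < (Hs d)^[j] w := by
      intro j
      by_contra hcon
      have h3 := Hs_odd hd hd3 ho' j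
      obtain ⟨m, h4, h5⟩ := neg_first hd hd3 ho' hi1 ⟨j, by omega⟩
      obtain ⟨q, _, hq⟩ := Hs_iter hd hd3 ho' m
      apply hneg
      refine ⟨q + i, ?_⟩
      rw [Function.iterate_add_apply, ← hw, hq]
      exact ⟨Hs_odd hd hd3 ho' m, h4, h5⟩
    obtain ⟨j, hj⟩ : ∃ j : ℕ, (Hs d)^[j] w ∈ EE d ∧ (Hs d)^[j] w ≤ w := by
      have hex' : ∃ v : ℕ, ∃ j : ℕ, ((Hs d)^[j] w).toNat = v := ⟨_, 0, rfl⟩
      obtain ⟨j, hj⟩ := Nat.find_spec hex'
      have hmin' : ∀ k : ℕ, (Hs d)^[j] w ≤ (Hs d)^[k] w := by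
        intro k
        have h3 := Nat.find_min' hex' ⟨k, rfl⟩
        have h4 := hp k
        have h5 := hp j
        omega
      refine ⟨j, ⟨hp j, Hs_odd hd hd3 ho' j, fun k => ?_⟩, hmin' 0⟩
      rw [← Function.iterate_add_apply]
      exact hmin' _
    obtain ⟨q, _, hq⟩ := Hs_iter hd hd3 ho' j
    have h6 : (Td d)^[q + i] (n : ℤ) = (Hs d)^[j] w := by
      rw [Function.iterate_add_apply, ← hw, hq]
    have h7 := hmin (q + i) (by rw [h6]; exact hj.1)
    rw [h6] at h7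
    have h8 := hj.2
    omega

/-- an element of `E` divisible by `3` is below an element of `E` prime to `3` -/
theorem EE_three (hd : Odd d) (hd3 : ¬ (3 : ℤ) ∣ d) {e : ℤ} (he : e ∈ EE d) : ∃ e' ∈ EE d, ¬ (3 : ℤ) ∣ e' ∧ e ≤ e' := by
  have ho := (step_val hd hd3 he.2.1).2.2.2
  have hp : ∀ j : ℕ, 0 < (Hs d)^[j] (Hs d e) := by
    intro j
    rw [← Function.iterate_succ_apply]
    exact lt_of_lt_of_le he.1 (he.2.2 _)
  obtain ⟨j, hj⟩ := pass_E hd hd3 ho hp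
  refine ⟨_, hj, ?_, ?_⟩
  · rw [← Function.iterate_succ_apply, Function.iterate_succ_apply']
    obtain ⟨v, h1, _⟩ := Hs_spec hd hd3 ((Hs d)^[j] e)
    intro h2
    apply hd3
    have h3 : (3 : ℤ) ∣ 3 * (Hs d)^[j] e + d := by
      rw [h1]
      exact Dvd.dvd.mul_left h2 _
    exact (Int.dvd_add_right (dvd_mul_right 3 _)).1 h3
  · rw [← Function.iterate_succ_apply]
    exact he.2.2 _

/-- THE MINIMA OF THE TRAJECTORIES -/
theorem min_main : ∃ c : ℝ, 1 - Real.qaryEntropy 2 (Real.log 2 / Real.log 3) / Real.log 2 < c ∧ 0 < c ∧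
    ∀ d : ℤ, Odd d → ¬ (3 : ℤ) ∣ d → ∃ (D : ℤ → ℝ) (η C : ℝ), 0 < C ∧ 0 ≤ η ∧ (0 < d → η = 0) ∧
      Dn (fun n : ℕ => n % 2 = 1 ∧ ∃ j : ℕ, (Hs d)^[j] (n : ℤ) < 0) (η / 2) ∧
      (∀ e ∈ EE d, 0 ≤ D e ∧ (¬ (3 : ℤ) ∣ e → 0 < D e) ∧
        Dn (fun n : ℕ => n % 2 = 1 ∧ Mn d e (n : ℤ)) (D e / 2)) ∧
      HasSum (fun e : EE d => D e) (1 - η) ∧
      (∀ y : ℕ, 1 ≤ y → ∀ S : Finset ℤ, (∀ e ∈ S, e ∈ EE d ∧ (y : ℤ) < e) → ∑ e ∈ S, D e ≤ C / (y : ℝ) ^ c) ∧
      ((EE d).Finite ↔ ∃ ε : ℝ, 0 < ε ∧ ∀ e ∈ EE d, ¬ (3 : ℤ) ∣ e → ε ≤ D e) := by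
  classical
  obtain ⟨c, hc1, hc, h⟩ := rate
  refine ⟨c, hc1, hc, fun d hd hd3 => ?_⟩
  obtain ⟨C, hC, hr⟩ := h d hd hd3
  -- densities
  have hD : ∀ e : ℤ, ∃ δ : ℝ, e ∈ EE d → (0 ≤ δ ∧ (¬ (3 : ℤ) ∣ e → 0 < δ) ∧ Dn (Qe d e) δ) := by
    intro e
    by_cases he : e ∈ EE d
    · obtain ⟨δ, h1⟩ := Mn_dens hd hd3 he
      exact ⟨δ, fun _ => h1⟩
    · exact ⟨0, fun h => absurd h he⟩
  choose D hD using hD
  obtain ⟨η, hη0, _, hη⟩ := Ht_dens hd hd3 (Ne_fin d)
  have hy : ∀ y : ℕ, ∃ δ : ℝ, Dn (Ht d (Fy d y)) δ := fun y => by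
    obtain ⟨δ, _, _, h1⟩ := Ht_dens hd hd3 (Fy_fin d y)
    exact ⟨δ, h1⟩
  choose δ hδ using hy
  have hrate : ∀ y : ℕ, 1 ≤ y → 1 - δ y ≤ C / (y : ℝ) ^ c := by
    intro y hy
    apply hr y hy
    have e : (fun n : ℕ => ∃ k : ℕ, (Td d)^[k] (1 * (n : ℤ)) ∈ Fy d y) = Ht d (Fy d y) := by
      funext n
      unfold Ht
      rw [one_mul]
    rw [e]
    exact hδ y
  -- the upper bound
  have hup : ∀ S : Finset ℤ, (∀ e ∈ S, e ∈ EE d) → ∑ e ∈ S, D e + η ≤ 1 := by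
    intro S hS
    apply sum_Qe_le hS (fun e he => (hD e (hS e he)).2.2) hη
    rintro e _ n hn ⟨k, hk⟩
    exact hn.2 ⟨k, hk.1, Or.inl hk.2⟩
  -- the tail
  have htail : ∀ y : ℕ, 1 ≤ y → ∀ S : Finset ℤ, (∀ e ∈ S, e ∈ EE d ∧ (y : ℤ) < e) → ∑ e ∈ S, D e ≤ C / (y : ℝ) ^ c := by
    intro y hy S hS
    have h1 : ∑ e ∈ S, D e + δ y ≤ 1 := by
      apply sum_Qe_le (fun e he => (hS e he).1) (fun e he => (hD e (hS e he).1).2.2) (hδ y)
      rintro e he n hn ⟨k, hk⟩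
      obtain ⟨ho, h2 | ⟨h2, h3⟩⟩ := hk
      · exact hn.2 ⟨k, ho, Or.inl h2⟩
      · exact hn.2 ⟨k, ho, Or.inr ⟨h2.1, lt_of_le_of_lt h3 (hS e he).2⟩⟩
    have := hrate y hy
    linarith
  -- the lower bound
  have hlow : ∀ y : ℕ, 1 ≤ y → 1 - C / (y : ℝ) ^ c ≤
      ∑ e ∈ ((Finset.Icc (1 : ℤ) y).filter (fun e => e ∈ EE d)), D e + η := by
    intro y hy
    set S := (Finset.Icc (1 : ℤ) y).filter (fun e => e ∈ EE d) with hS
    have hSE : ∀ e ∈ S, e ∈ EE d := fun e he => (mem_filter.1 he).2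
    have h1 : δ y ≤ ∑ e ∈ S, D e + η := by
      have g1 : Tendsto (fun N : ℕ => ∑ e ∈ S, cnt (Qe d e) N / N + cnt (Ht d (Ne d)) N / N) atTop
          (𝓝 (∑ e ∈ S, D e + η)) := (tendsto_finsetSum _ fun e he => (hD e (hSE e he)).2.2).add hη
      refine le_of_tendsto_of_tendsto (hδ y) g1 ?_
      filter_upwards [eventually_ge_atTop 1] with N hN
      have hN0 : (0 : ℝ) < N := by exact_mod_cast hN
      rw [← Finset.sum_div, ← add_div]
      apply div_le_div_of_nonneg_right _ hN0.le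
      simp only [cnt_eq]
      have g2 : ((Icc 1 N).filter (Ht d (Fy d y))) ⊆
          (S.biUnion (fun e => (Icc 1 N).filter (Qe d e))) ∪ (Icc 1 N).filter (Ht d (Ne d)) := by
        intro n hn
        rw [mem_filter] at hn
        rw [mem_union, mem_biUnion]
        rcases split_Fy hd hd3 (mem_Icc.1 hn.1).1 hn.2 with g | ⟨e, he, hey, hq⟩
        · exact Or.inr (mem_filter.2 ⟨hn.1, g⟩)
        · refine Or.inl ⟨e, ?_, mem_filter.2 ⟨hn.1, hq⟩⟩
          rw [hS, mem_filter, mem_Icc]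
          have := he.1
          exact ⟨⟨by omega, hey⟩, he⟩
      have g3 := (card_le_card g2).trans ((card_union_le _ _).trans (Nat.add_le_add_right card_biUnion_le _))
      exact_mod_cast g3
    have := hrate y hy
    linarith
  have hsumm : HasSum (fun e : EE d => D e) (1 - η) := by
    apply hasSum_of_isLUB_of_nonneg
    · rintro ⟨e, he⟩
      exact (hD e he).1
    · constructor
      · rintro _ ⟨S, rfl⟩
        have h1 := hup (S.map (Function.Embedding.subtype _)) (by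
          intro e he
          rw [Finset.mem_map] at he
          obtain ⟨⟨e', he'⟩, _, rfl⟩ := he
          exact he')
        rw [sum_map] at h1
        simp only [Function.Embedding.coe_subtype] at h1
        linarith
      · intro b hb
        have h2 : Tendsto (fun y : ℕ => 1 - C / (y : ℝ) ^ c - η) atTop (𝓝 (1 - 0 - η)) := by
          apply Tendsto.sub_const
          apply Tendsto.const_sub
          exact ((tendsto_rpow_atTop hc).comp tendsto_natCast_atTop_atTop).const_div_atTop C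
        rw [sub_zero] at h2
        refine le_of_tendsto h2 ?_
        filter_upwards [eventually_ge_atTop 1] with y hy
        have h3 := hlow y hy
        have h4 := hb ⟨((Finset.Icc (1 : ℤ) y).filter (fun e => e ∈ EE d)).subtype (fun e => e ∈ EE d), rfl⟩
        simp only at h4
        have h5 : ∑ e ∈ ((Finset.Icc (1 : ℤ) y).filter (fun e => e ∈ EE d)).subtype (fun e => e ∈ EE d), D e =
            ∑ e ∈ ((Finset.Icc (1 : ℤ) y).filter (fun e => e ∈ EE d)), D e := by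
          rw [sum_subtype_eq_sum_filter, filter_filter]
          apply sum_congr _ (fun _ _ => rfl)
          ext e
          simp
        rw [h5] at h4
        linarith
  refine ⟨D, η, C, hC, hη0, ?_, ?_, ?_, hsumm, htail, ?_⟩
  · intro hd0
    refine tendsto_nhds_unique hη ?_
    have e : ∀ N : ℕ, cnt (Ht d (Ne d)) N / N = 0 := by
      intro N
      rw [cnt_eq]
      have : (Icc 1 N).filter (Ht d (Ne d)) = ∅ := by
        rw [filter_eq_empty_iff]
        rintro n hn ⟨k, hk⟩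
        have hpos : ∀ k : ℕ, 0 < (Td d)^[k] (n : ℤ) := by
          intro k
          induction k with
          | zero =>
            have := (mem_Icc.1 hn).1
            simp only [Function.iterate_zero, id_eq]
            omega
          | succ k ih =>
            rw [Function.iterate_succ_apply']
            have hd' := Int.odd_iff.1 hd
            generalize (Td d)^[k] (n : ℤ) = z at ih ⊢
            unfold Td
            split_ifs <;> omega
        have h1 := hpos k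
        have h2 := hk.2.2
        omega
      rw [this]
      simp
    unfold Dn at *
    simp only [e]
    exact tendsto_const_nhds
  · have h1 := Dn_odd (P := Ht d (Ne d)) (fun n => Ht_two (fun _ h => h.1) n) hη
    have e : (fun n : ℕ => n % 2 = 1 ∧ ∃ j : ℕ, (Hs d)^[j] (n : ℤ) < 0) = fun n : ℕ => n % 2 = 1 ∧ Ht d (Ne d) n := by
      funext n
      apply propext
      apply and_congr_right
      intro hn
      have hx : (n : ℤ) % 2 = 1 := by omega
      unfold Ht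
      rw [← hit_iff hd hd3 hx (F := Ne d) (fun _ h => h.1)]
      constructor
      · intro h
        obtain ⟨j, h2, h3⟩ := neg_first hd hd3 hx (by omega) h
        exact ⟨j, Hs_odd hd hd3 hx j, h2, h3⟩
      · rintro ⟨j, _, _, h2⟩
        exact ⟨j, h2⟩
    rw [e]
    exact h1
  · intro e he
    obtain ⟨h1, h2, h3⟩ := hD e he
    refine ⟨h1, h2, ?_⟩
    have h4 := Dn_odd (Qe_two e) h3
    have e' : (fun n : ℕ => n % 2 = 1 ∧ Mn d e (n : ℤ)) = fun n : ℕ => n % 2 = 1 ∧ Qe d e n := by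
      funext n
      apply propext
      apply and_congr_right
      intro hn
      exact Mn_iff hd hd3 he hn
    rw [e']
    exact h4
  · constructor
    · intro hfin
      by_cases hne : ((hfin.toFinset).filter (fun e => ¬ (3 : ℤ) ∣ e)).Nonempty
      · obtain ⟨e0, he0, hmin⟩ := exists_min_image _ D hne
        rw [mem_filter, Set.Finite.mem_toFinset] at he0
        refine ⟨D e0, (hD e0 he0.1).2.1 he0.2, fun e he he3 => ?_⟩
        apply hmin
        rw [mem_filter, Set.Finite.mem_toFinset]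
        exact ⟨he, he3⟩
      · refine ⟨1, one_pos, fun e he he3 => ?_⟩
        exfalso
        apply hne
        exact ⟨e, by rw [mem_filter, Set.Finite.mem_toFinset]; exact ⟨he, he3⟩⟩
    · rintro ⟨ε, hε, hεe⟩
      have hfin3 : {e : ℤ | e ∈ EE d ∧ ¬ (3 : ℤ) ∣ e}.Finite := by
        by_contra hinf
        obtain ⟨S, hS, hcard⟩ := Set.Infinite.exists_subset_card_eq hinf (⌊1 / ε⌋₊ + 1)
        have h1 := hup S (fun e he => (hS (mem_coe.2 he)).1)
        have h2 : (S.card : ℝ) * ε ≤ ∑ e ∈ S, D e := by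
          rw [← nsmul_eq_mul]
          apply card_nsmul_le_sum
          intro e he
          exact hεe e (hS (mem_coe.2 he)).1 (hS (mem_coe.2 he)).2
        rw [hcard] at h2
        have h3 := Nat.lt_floor_add_one (1 / ε)
        rw [div_lt_iff₀ hε] at h3
        push_cast at h2
        linarith
      obtain ⟨b, hb⟩ := hfin3.bddAbove
      apply (Set.finite_Icc 0 b).subset
      intro e he
      obtain ⟨e', he', h3, hle⟩ := EE_three hd hd3 he
      exact ⟨he.1.le, hle.trans (hb ⟨he', h3⟩)⟩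

end Pool.Agent.R978.ML
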