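import Pool.Agent.R978.ML.B
import Pool.Agent.R978.ML.D

/-!
The cycles of the Syracuse map on the negative odd integers (and on the positive ones): densities of the
basins, and the number of cycles.
-/

set_option autoImplicit false

namespace Pool.Agent.R978.ML

open Finset Filter Topology
open Pool.Agent.H499R2.LT
open Pool.Agent.H499R2.ND (Td Dn cop_of_not_dvd side_odd cnt cnt_eq exists_prime3')
open Pool.Agent.R344.LS
open Pool.Agent.Results.MP_fd8838_nt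

theorem h31 : ¬ (3 : ℤ) ∣ 1 := by omega

/-- the cycles of a map -/
def CycF (f : ℤ → ℤ) (Z : Finset ℤ) : Prop :=
  ∃ (x : ℤ) (p : ℕ), 1 ≤ p ∧ f^[p] x = x ∧ Z = (range p).image fun i => f^[i] x

theorem CycF.mem_iff {f : ℤ → ℤ} {Z : Finset ℤ} {x : ℤ} {p : ℕ} (hp : 1 ≤ p) (hx : f^[p] x = x)
    (hZ : Z = (range p).image fun i => f^[i] x) (z : ℤ) : z ∈ Z ↔ ∃ k : ℕ, f^[k] x = z := by
  rw [hZ, mem_image]
  constructor
  · rintro ⟨i, _, rfl⟩
    exact ⟨i, rfl⟩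
  · rintro ⟨k, rfl⟩
    exact ⟨k % p, mem_range.2 (Nat.mod_lt _ hp), (per_mod hx k).symm⟩

theorem CycF.orbit {f : ℤ → ℤ} {Z : Finset ℤ} (h : CycF f Z) {w : ℤ} (hw : w ∈ Z) (z : ℤ) :
    z ∈ Z ↔ ∃ k : ℕ, f^[k] w = z := by
  obtain ⟨x, p, hp, hx, hZ⟩ := h
  have hm := fun z => CycF.mem_iff hp hx hZ z
  obtain ⟨j, hj⟩ := (hm w).1 hw
  constructor
  · intro hz
    obtain ⟨k, hk⟩ := (hm z).1 hz
    have h1 : f^[(j + 1) * p - j] w = x := by
      rw [← hj, ← Function.iterate_add_apply, Nat.sub_add_cancel (by nlinarith)]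
      exact per_mul hx _
    exact ⟨k + ((j + 1) * p - j), by rw [Function.iterate_add_apply, h1, hk]⟩
  · rintro ⟨k, rfl⟩
    rw [hm]
    exact ⟨k + j, by rw [Function.iterate_add_apply, hj]⟩

theorem CycF.nonempty {f : ℤ → ℤ} {Z : Finset ℤ} (h : CycF f Z) : Z.Nonempty := by
  obtain ⟨x, p, hp, hx, hZ⟩ := h
  exact ⟨x, (CycF.mem_iff hp hx hZ x).2 ⟨0, rfl⟩⟩

theorem CycF.eq {f : ℤ → ℤ} {Z Z' : Finset ℤ} (h : CycF f Z) (h' : CycF f Z') {w : ℤ} (hw : w ∈ Z)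
    (hw' : w ∈ Z') : Z = Z' := by
  ext z
  rw [h.orbit hw, h'.orbit hw']

/-- a cycle of the Syracuse map on the odd integers of sign `s` -/
def SC (s : ℤ) (Z : Finset ℤ) : Prop := CycF (Hs 1) Z ∧ ∀ z ∈ Z, z % 2 = 1 ∧ 0 < s * z

/-- the elements of a cycle of the Syracuse map are prime to 3 -/
theorem SC.prime3 {s : ℤ} {Z : Finset ℤ} (h : SC s Z) {z : ℤ} (hz : z ∈ Z) : ¬ (3 : ℤ) ∣ z := by
  obtain ⟨x, p, hp, hx, hZ⟩ := id h.1
  obtain ⟨k, hk⟩ := (CycF.mem_iff hp hx hZ z).1 hz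
  -- z = Hs (...)
  have h1 : z = Hs 1 ((Hs 1)^[k + p - 1] x) := by
    rw [← Function.iterate_succ_apply' (Hs 1), show (k + p - 1).succ = k + p by omega,
      Function.iterate_add_apply, hx, hk]
  obtain ⟨v, M, h2, h3⟩ := exists_pow _ (3 * ((Hs 1)^[k + p - 1] x) + 1) (nz h31 _) le_rfl
  rw [h1, Hs_eq h2 h3]
  rintro ⟨c, hc⟩
  rw [hc] at h2
  have : (2 : ℤ) ^ v * (3 * c) = 3 * (2 ^ v * c) := by ring
  omega

/-- an integer whose `T`-trajectory meets two cycles -/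
theorem SC.eq_of_reach {s : ℤ} {Z Z' : Finset ℤ} (h : SC s Z) (h' : SC s Z') {x : ℤ} {k k' : ℕ}
    (hk : (Td 1)^[k] x ∈ Z) (hk' : (Td 1)^[k'] x ∈ Z') : Z = Z' := by
  have key : ∀ Z Z' : Finset ℤ, SC s Z → SC s Z' → ∀ k k' : ℕ, (Td 1)^[k] x ∈ Z → (Td 1)^[k'] x ∈ Z' →
      k ≤ k' → Z = Z' := by
    intro Z Z' h h' k k' hk hk' hle
    obtain ⟨m, rfl⟩ := Nat.exists_eq_add_of_le hle
    rw [Nat.add_comm, Function.iterate_add_apply] at hk'
    obtain ⟨j, hj⟩ := Td_iter odd_one h31 (h.2 _ hk).1 m (h'.2 _ hk').1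
    apply h.1.eq h'.1 (w := (Td 1)^[m] ((Td 1)^[k] x)) _ hk'
    rw [← hj]
    exact (h.1.orbit hk _).2 ⟨j, rfl⟩
  rcases le_total k k' with hle | hle
  · exact key Z Z' h h' k k' hk hk' hle
  · exact (key Z' Z h' h k' k hk' hk hle).symm

/-- the basin -/
def B1 (s : ℤ) (Z : Finset ℤ) (n : ℕ) : Prop := ∃ k : ℕ, (Td 1)^[k] (s * n) ∈ Z

theorem sum_dens_le1 {s : ℤ} (S : Finset (Finset ℤ)) (hS : ∀ Z ∈ S, SC s Z) {δ : Finset ℤ → ℝ}
    (hδ : ∀ Z ∈ S, Dn (B1 s Z) (δ Z)) (Q : ℕ → Prop)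
    (hQ : ∀ Z ∈ S, ∀ n : ℕ, 1 ≤ n → B1 s Z n → Q n) {b : ℝ} (hb : ∀ N : ℕ, 1 ≤ N → cnt Q N ≤ b * N) :
    ∑ Z ∈ S, δ Z ≤ b := by
  classical
  have h1 : Tendsto (fun N : ℕ => ∑ Z ∈ S, cnt (B1 s Z) N / N) atTop (𝓝 (∑ Z ∈ S, δ Z)) :=
    tendsto_finsetSum _ fun Z hZ => hδ Z hZ
  refine le_of_tendsto h1 ?_
  filter_upwards [eventually_ge_atTop 1] with N hN
  have hN0 : (0 : ℝ) < N := by exact_mod_cast hN
  rw [← Finset.sum_div, div_le_iff₀ hN0]
  refine le_trans ?_ (hb N hN)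
  simp only [cnt_eq]
  rw [← Nat.cast_sum, ← card_biUnion]
  · apply Nat.cast_le.2
    apply card_le_card
    intro n hn
    rw [mem_biUnion] at hn
    obtain ⟨Z, hZ, hn⟩ := hn
    rw [mem_filter] at hn ⊢
    exact ⟨hn.1, hQ Z hZ n (mem_Icc.1 hn.1).1 hn.2⟩
  · intro Z hZ Z' hZ' hne
    rw [Function.onFun, disjoint_filter]
    rintro n _ ⟨k, hk⟩ ⟨k', hk'⟩
    exact hne ((hS Z hZ).eq_of_reach (hS Z' hZ') hk hk')

/-- the cycle `Z` is reached from an odd integer `N` of sign `s` with `|N| ≤ y` -/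
def R1 (s : ℤ) (y : ℕ) (Z : Finset ℤ) : Prop :=
  ∃ m : ℤ, m % 2 = 1 ∧ 0 < s * m ∧ s * m ≤ y ∧ ∃ k : ℕ, (Hs 1)^[k] m ∈ Z

theorem card_R1 {s : ℤ} (hs : s = 1 ∨ s = -1) (y : ℕ) (S : Finset (Finset ℤ)) (hS : ∀ Z ∈ S, SC s Z ∧ R1 s y Z) :
    S.card ≤ y := by
  classical
  have h : ∀ Z ∈ S, ∃ m : ℤ, m % 2 = 1 ∧ 0 < s * m ∧ s * m ≤ y ∧ ∃ k : ℕ, (Hs 1)^[k] m ∈ Z := fun Z hZ => (hS Z hZ).2
  choose! g hg0 hg1 hg2 hg3 using h
  have h1 : S.card ≤ (Finset.Icc (1 : ℤ) y).card := by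
    apply card_le_card_of_injOn (fun Z => s * g Z)
    · intro Z hZ
      rw [coe_Icc, Set.mem_Icc]
      have h1 := hg1 Z hZ
      have h2 := hg2 Z hZ
      refine ⟨?_, h2⟩
      show (1 : ℤ) ≤ s * g Z
      omega
    · intro Z hZ Z' hZ' he
      simp only at he
      obtain ⟨k, hk⟩ := hg3 Z hZ
      obtain ⟨k', hk'⟩ := hg3 Z' hZ'
      have he' : g Z = g Z' := by
        rcases hs with rfl | rfl <;> omega
      obtain ⟨q, _, hq⟩ := Hs_iter odd_one h31 (hg0 Z hZ) k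
      obtain ⟨q', _, hq'⟩ := Hs_iter odd_one h31 (hg0 Z' hZ') k'
      rw [← hq] at hk
      rw [← hq', ← he'] at hk'
      exact (hS Z hZ).1.eq_of_reach (hS Z' hZ').1 hk hk'
  rw [Int.card_Icc] at h1
  omega

/-- from all to odd -/
theorem to_odd {s : ℤ} (hs : s = 1 ∨ s = -1) {F : Set ℤ} (hF : ∀ y ∈ F, y % 2 = 1) (n : ℕ) : ∀ m : ℤ, 0 < s * m →
    m.natAbs ≤ n → (∃ k : ℕ, (Td 1)^[k] m ∈ F) →
    ∃ m' : ℤ, m' % 2 = 1 ∧ 0 < s * m' ∧ s * m' ≤ s * m ∧ ∃ k : ℕ, (Hs 1)^[k] m' ∈ F := by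
  induction n with
  | zero =>
    intro m hm h
    rcases hs with rfl | rfl <;> omega
  | succ n ih =>
    intro m hm hn h
    rcases Int.emod_two_eq_zero_or_one m with h1 | h1
    · have e : m = 2 * (m / 2) := by omega
      rw [e, hit_two hF] at h
      obtain ⟨m', g1, g2, g3, g4⟩ := ih (m / 2) (by rcases hs with rfl | rfl <;> omega) (by omega) h
      refine ⟨m', g1, g2, ?_, g4⟩
      rcases hs with rfl | rfl <;> omega
    · exact ⟨m, h1, hm, le_rfl, (hit_iff odd_one h31 h1 hF).2 h⟩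

/-- THE CYCLES OF THE SYRACUSE MAP -/
theorem syr_cyc {s : ℤ} (hs : s = 1 ∨ s = -1) : ∃ c : ℝ, 0.049 < c ∧
    1 - Real.binEntropy (Real.log 2 / Real.log 3) / Real.log 2 < c ∧
    ∃ (δ : Finset ℤ → ℝ) (C : ℝ), 0 < C ∧
      (∀ Z : Finset ℤ, SC s Z → 0 < δ Z ∧ δ Z ≤ 1 ∧
        Dn (fun n : ℕ => n % 2 = 1 ∧ ∃ k : ℕ, (Hs 1)^[k] (s * (n : ℤ)) ∈ Z) (δ Z / 2)) ∧
      (∀ S : Finset (Finset ℤ), (∀ Z ∈ S, SC s Z) → ∑ Z ∈ S, δ Z ≤ 1) ∧
      (∀ y : ℕ, 1 ≤ y → ∀ S : Finset (Finset ℤ), (∀ Z ∈ S, SC s Z ∧ ¬ R1 s y Z) →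
        ∑ Z ∈ S, δ Z ≤ C / (y : ℝ) ^ c) ∧
      (∀ ε : ℝ, 0 < ε → ε ≤ 1 → ∀ S : Finset (Finset ℤ),
        (∀ Z ∈ S, SC s Z ∧ ε ≤ δ Z) → (S.card : ℝ) ≤ C * (1 / ε) ^ (1 / (1 + c))) ∧
      ({Z : Finset ℤ | SC s Z}.Finite ↔ ∃ ε : ℝ, 0 < ε ∧ ∀ Z : Finset ℤ, SC s Z → ε ≤ δ Z) := by
  classical
  obtain ⟨c, hc1, h⟩ := avoid
  have hb : Real.binEntropy (Real.log 2 / Real.log 3) / Real.log 2 < 0.951 := Pool.Agent.H319R2.beta_lt
  have hc0 : 0.049 < c := by linarith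
  have hcp : 0 < c := by linarith
  refine ⟨c, hc0, hc1, ?_⟩
  obtain ⟨C, hC, hav⟩ := h 1 odd_one
  have hall : ∀ Z : Finset ℤ, ∃ δ : ℝ, 0 ≤ δ ∧ ((∃ a ∈ Z, 0 < s * a ∧ ¬ (3 : ℤ) ∣ a) → 0 < δ) ∧
      Dn (B1 s Z) δ := by
    intro Z
    obtain ⟨δ, h0, h1, h2, _⟩ := level_sums (d := 1) odd_one h31 hs Z
    exact ⟨δ, h0, h1, h2⟩
  choose δ hδ0 hδp hδ using hall
  have hpos : ∀ Z : Finset ℤ, SC s Z → 0 < δ Z := by
    intro Z hZ
    obtain ⟨w, hw⟩ := hZ.1.nonempty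
    exact hδp Z ⟨w, hw, (hZ.2 w hw).2, hZ.prime3 hw⟩
  -- total mass
  have htot : ∀ S : Finset (Finset ℤ), (∀ Z ∈ S, SC s Z) → ∑ Z ∈ S, δ Z ≤ 1 := by
    intro S hS
    apply sum_dens_le1 S hS (fun Z _ => hδ Z) (fun _ => True) (fun _ _ _ _ _ => trivial)
    intro N _
    rw [cnt_eq, one_mul]
    have := card_filter_le (Icc 1 N) (fun _ => True)
    rw [Nat.card_Icc, Nat.add_sub_cancel] at this
    exact_mod_cast this
  -- the tail
  have htail : ∀ y : ℕ, 1 ≤ y → ∀ S : Finset (Finset ℤ), (∀ Z ∈ S, SC s Z ∧ ¬ R1 s y Z) →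
        ∑ Z ∈ S, δ Z ≤ C / (y : ℝ) ^ c := by
    intro y hy S hS
    have hy1 : (1 : ℝ) ≤ y := by exact_mod_cast hy
    apply sum_dens_le1 S (fun Z hZ => (hS Z hZ).1) (fun Z _ => hδ Z)
      (fun n : ℕ => ∀ k : ℕ, (y : ℝ) < |(((Td 1)^[k] (s * n) : ℤ) : ℝ)|)
    · rintro Z hZ n hn ⟨k, hk⟩ i
      by_contra hcon
      push Not at hcon
      obtain ⟨g1, g3⟩ := hS Z hZ
      apply g3
      have hsn : 0 < s * (s * (n : ℤ)) := by
        rcases hs with rfl | rfl <;> omega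
      have hsm := sign_iter hs i (s * (n : ℤ)) hsn
      set m := (Td 1)^[i] (s * (n : ℤ)) with hm
      have hmy : |m| ≤ (y : ℤ) := by exact_mod_cast hcon
      -- the trajectory of `m` meets `Z`
      have hmZ : ∃ l : ℕ, (Td 1)^[l] m ∈ Z := by
        rcases le_total i k with hle | hle
        · refine ⟨k - i, ?_⟩
          rw [hm, ← Function.iterate_add_apply, Nat.sub_add_cancel hle]
          exact hk
        · -- `m` is on the trajectory of an element `z` of the cycle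
          obtain ⟨q, rfl⟩ := Nat.exists_eq_add_of_le hle
          set z := (Td 1)^[k] (s * (n : ℤ)) with hz
          have hmz : m = (Td 1)^[q] z := by
            rw [hm, Nat.add_comm, Function.iterate_add_apply]
          obtain ⟨x, p, hp, hx, hZ'⟩ := id g1.1
          -- the orbit of `z` under `Hs` comes back to `z` after at least `q` steps
          have hzper : ∃ P : ℕ, q ≤ P ∧ (Hs 1)^[P] z ∈ Z := ⟨q, le_rfl, (g1.1.orbit hk _).2 ⟨q, rfl⟩⟩
          obtain ⟨P, hP, hPZ⟩ := hzper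
          obtain ⟨l, hl, hlz⟩ := Hs_iter odd_one h31 (g1.2 z hk).1 P
          refine ⟨l - q, ?_⟩
          rw [hmz, ← Function.iterate_add_apply, Nat.sub_add_cancel (by omega), hlz]
          exact hPZ
      obtain ⟨m', a1, a2, a3, a4⟩ := to_odd hs (F := (Z : Set ℤ)) (fun z hz => (g1.2 z (mem_coe.1 hz)).1) _ m hsm
        le_rfl (by obtain ⟨l, hl⟩ := hmZ; exact ⟨l, mem_coe.2 hl⟩)
      refine ⟨m', a1, a2, ?_, ?_⟩
      · have := abs_le.1 hmy
        rcases hs with rfl | rfl <;> omega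
      · obtain ⟨k', hk'⟩ := a4
        exact ⟨k', mem_coe.1 hk'⟩
    · intro N hN
      have hN1 : (1 : ℝ) ≤ N := by exact_mod_cast hN
      have h1 := hav N y hN1 hy1
      have e : C / (y : ℝ) ^ c * N = C * N / (y : ℝ) ^ c := by ring
      rw [e]
      refine le_trans ?_ h1
      rw [cnt_eq]
      have hinj : Function.Injective (fun n : ℕ => s * (n : ℤ)) := by
        intro a b hab
        simp only at hab
        rcases hs with rfl | rfl <;> omega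
      have h2 : ((Icc 1 N).filter (fun n : ℕ => ∀ k : ℕ, (y : ℝ) < |(((Td 1)^[k] (s * n) : ℤ) : ℝ)|)).card ≤
          {x : ℤ | |(x : ℝ)| ≤ (N : ℝ) ∧ ∀ k : ℕ, (y : ℝ) < |(((Td 1)^[k] x : ℤ) : ℝ)|}.ncard := by
        rw [← Set.ncard_coe_finset, ← Set.ncard_image_of_injective _ hinj]
        apply Set.ncard_le_ncard
        · rintro z ⟨n, hn, rfl⟩
          rw [mem_coe, mem_filter, mem_Icc] at hn
          refine ⟨?_, hn.2⟩
          have g1 : |(s : ℝ)| = 1 := by rcases hs with rfl | rfl <;> simp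
          push_cast
          rw [abs_mul, g1, one_mul, Nat.abs_cast]
          exact_mod_cast hn.1.2
        · apply (Set.finite_Icc (-(N : ℤ)) N).subset
          rintro x ⟨g1, _⟩
          rw [Set.mem_Icc, ← abs_le]
          exact_mod_cast g1
      exact_mod_cast h2
  -- the count
  have hcount : ∀ ε : ℝ, 0 < ε → ε ≤ 1 → ∀ S : Finset (Finset ℤ),
        (∀ Z ∈ S, SC s Z ∧ ε ≤ δ Z) → (S.card : ℝ) ≤ (2 + C) * (1 / ε) ^ (1 / (1 + c)) := by
    intro ε hε hε1 S hS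
    set R : ℝ := (1 / ε) ^ (1 / (1 + c)) with hR
    have hε' : 1 ≤ 1 / ε := by rw [le_div_iff₀ hε]; linarith
    have hR1 : 1 ≤ R := Real.one_le_rpow hε' (by positivity)
    have hRp : 0 < R := by linarith
    set y : ℕ := ⌈R⌉₊ with hy
    have hy1 : 1 ≤ y := by
      rw [hy, Nat.one_le_ceil_iff]
      exact hRp
    have hyR : R ≤ y := Nat.le_ceil R
    have hyR' : (y : ℝ) < R + 1 := Nat.ceil_lt_add_one hRp.le
    have h1 : ((S.filter (fun Z => R1 s y Z)).card : ℝ) ≤ y := by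
      have := card_R1 hs y (S.filter (fun Z => R1 s y Z)) (fun Z hZ => by
        rw [mem_filter] at hZ
        exact ⟨(hS Z hZ.1).1, hZ.2⟩)
      exact_mod_cast this
    have h2 : ((S.filter (fun Z => ¬ R1 s y Z)).card : ℝ) * ε ≤ C / (y : ℝ) ^ c := by
      have g1 := htail y hy1 (S.filter (fun Z => ¬ R1 s y Z)) (fun Z hZ => by
        rw [mem_filter] at hZ
        exact ⟨(hS Z hZ.1).1, hZ.2⟩)
      refine le_trans ?_ g1
      rw [← nsmul_eq_mul]
      apply card_nsmul_le_sum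
      intro Z hZ
      rw [mem_filter] at hZ
      exact (hS Z hZ.1).2
    have h3 : R ^ c * R = 1 / ε := by
      have e2 : R ^ c * R = R ^ (c + 1) := by rw [Real.rpow_add hRp, Real.rpow_one]
      rw [e2, hR, ← Real.rpow_mul (by positivity)]
      have e3 : 1 / (1 + c) * (c + 1) = 1 := by
        have : (1 + c) ≠ 0 := by positivity
        field_simp
        ring
      rw [e3, Real.rpow_one]
    have hRc : 0 < R ^ c := by positivity
    have h4 : ((S.filter (fun Z => ¬ R1 s y Z)).card : ℝ) ≤ C * R := by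
      have g1 : C / (y : ℝ) ^ c ≤ C / R ^ c := by
        apply div_le_div_of_nonneg_left hC.le hRc
        exact Real.rpow_le_rpow hRp.le hyR hcp.le
      have g2 := h2.trans g1
      rw [le_div_iff₀ hRc] at g2
      have g3 : ((S.filter (fun Z => ¬ R1 s y Z)).card : ℝ) * (ε * R ^ c) ≤ C := by linarith
      have g4 : ε * R ^ c * R = 1 := by
        rw [mul_assoc, h3]
        field_simp
      have g5 := mul_le_mul_of_nonneg_right g3 hRp.le
      calc ((S.filter (fun Z => ¬ R1 s y Z)).card : ℝ) =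
          ((S.filter (fun Z => ¬ R1 s y Z)).card : ℝ) * (ε * R ^ c * R) := by rw [g4, mul_one]
        _ = ((S.filter (fun Z => ¬ R1 s y Z)).card : ℝ) * (ε * R ^ c) * R := by ring
        _ ≤ C * R := g5
    have h5 : (S.card : ℝ) = ((S.filter (fun Z => R1 s y Z)).card : ℝ) +
        ((S.filter (fun Z => ¬ R1 s y Z)).card : ℝ) := by
      exact_mod_cast (card_filter_add_card_filter_not (s := S) (fun Z => R1 s y Z)).symm
    rw [h5]
    nlinarith
  refine ⟨δ, 2 + C, by linarith, ?_, htot, ?_, hcount, ?_⟩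
  · intro Z hZ
    refine ⟨hpos Z hZ, ?_, ?_⟩
    · have := htot {Z} (by intro Z' h; rw [mem_singleton] at h; rw [h]; exact hZ)
      simpa using this
    · have hP : ∀ n : ℕ, B1 s Z (2 * n) ↔ B1 s Z n := by
        intro n
        unfold B1
        have e : s * ((2 * n : ℕ) : ℤ) = 2 * (s * (n : ℤ)) := by push_cast; ring
        rw [e]
        have := hit_two (d := 1) (F := (Z : Set ℤ)) (fun z hz => (hZ.2 z (mem_coe.1 hz)).1) (s * (n : ℤ))
        simpa only [mem_coe] using this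
      have h1 := Dn_odd hP (hδ Z)
      have e : (fun n : ℕ => n % 2 = 1 ∧ ∃ k : ℕ, (Hs 1)^[k] (s * (n : ℤ)) ∈ Z) =
          fun n : ℕ => n % 2 = 1 ∧ B1 s Z n := by
        funext n
        apply propext
        apply and_congr_right
        intro hn
        have hx : (s * (n : ℤ)) % 2 = 1 := by rcases hs with rfl | rfl <;> omega
        have := hit_iff (d := 1) odd_one h31 hx (F := (Z : Set ℤ)) (fun z hz => (hZ.2 z (mem_coe.1 hz)).1)
        unfold B1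
        simpa only [mem_coe] using this
      rw [e]
      exact h1
  · intro y hy S hS
    refine (htail y hy S hS).trans ?_
    have hy1 : (1 : ℝ) ≤ y := by exact_mod_cast hy
    apply div_le_div_of_nonneg_right _ (by positivity)
    linarith
  · constructor
    · intro hfin
      by_cases hne : (hfin.toFinset).Nonempty
      · obtain ⟨Z0, hZ0, hmin⟩ := exists_min_image _ δ hne
        rw [Set.Finite.mem_toFinset] at hZ0
        refine ⟨δ Z0, hpos Z0 hZ0, fun Z hZ => ?_⟩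
        apply hmin
        rw [Set.Finite.mem_toFinset]
        exact hZ
      · refine ⟨1, one_pos, fun Z hZ => ?_⟩
        exfalso
        apply hne
        exact ⟨Z, by rw [Set.Finite.mem_toFinset]; exact hZ⟩
    · rintro ⟨ε, hε, hεZ⟩
      by_contra hinf
      obtain ⟨S, hS, hcard⟩ := Set.Infinite.exists_subset_card_eq hinf (⌊1 / ε⌋₊ + 1)
      have h1 := htot S (fun Z hZ => hS (mem_coe.2 hZ))
      have h2 : (S.card : ℝ) * ε ≤ ∑ Z ∈ S, δ Z := by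
        rw [← nsmul_eq_mul]
        apply card_nsmul_le_sum
        intro Z hZ
        exact hεZ Z (hS (mem_coe.2 hZ))
      rw [hcard] at h2
      have h3 := Nat.lt_floor_add_one (1 / ε)
      rw [div_lt_iff₀ hε] at h3
      push_cast at h2
      linarith

end Pool.Agent.R978.ML
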